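import Mathlib
import Pool.Agent.Lib.SSG.E.A4

/-! # SSG, part V: functions of the coordinates modulo powers of a prime element π -/

open NumberField

namespace SSG.V

open SSG

variable {F : Type} [Field F] [NumberField F] {C : Type} [NormedField C] [IsUltrametricDist C] {L : LTF F C} {N : ℕ}
  {ι : Type} [Fintype ι] {π : 𝓞 F}

/-- The coordinates are small and depend on the classes modulo π^N. -/
structure OkR {C : Type} [NormedField C] (π : 𝓞 F) (L : LTF F C) : Prop where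
  ne : π ≠ 0
  small : ∀ N a, ‖L.X N a‖ < 1
  per : ∀ N a b, π ^ N ∣ a - b → L.X N a = L.X N b


theorem Fn_perR (hL : OkR π L) {H : (ι → 𝓞 F) → C} (h : L.Fn N ι H) (a b : ι → 𝓞 F)
    (hab : ∀ k, π ^ N ∣ a k - b k) : H a = H b := by
  have h1 : ∀ ε > 0, ‖H a - H b‖ ≤ ε := by
    intro ε hε
    obtain ⟨Q, _, hQ⟩ := h (ε / 2) (by positivity)
    have h2 := hQ a
    have h3 := hQ b
    have h4 : (fun i => L.X N (b i)) = fun i => L.X N (a i) := by
      funext i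
      exact (hL.per N (a i) (b i) (hab i)).symm
    rw [h4] at h3
    have h5 : H a - H b =
        (H a - MvPolynomial.eval (fun i => L.X N (a i)) Q) -
          (H b - MvPolynomial.eval (fun i => L.X N (a i)) Q) := by
      ring
    rw [h5]
    refine (norm_sub_le _ _).trans ?_
    linarith
  have h2 : ‖H a - H b‖ ≤ 0 := le_of_forall_pos_le_add (by
    intro ε hε
    rw [zero_add]
    exact h1 ε hε)
  exact sub_eq_zero.1 (norm_le_zero_iff.1 h2)

theorem Fn_unifR (hL : OkR π L) {H : (ι → 𝓞 F) → C} (h : L.Fn N ι H) (u : C)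
    (hu : ∀ a, ‖H a - u‖ < 1) : ∃ ρ : ℝ, 0 ≤ ρ ∧ ρ < 1 ∧ ∀ a, ‖H a - u‖ ≤ ρ := by
  have hne : Ideal.span {π ^ N} ≠ ⊥ := by
    rw [Ne, Ideal.span_singleton_eq_bot]
    exact pow_ne_zero _ hL.ne
  haveI : Finite (𝓞 F ⧸ Ideal.span {π ^ N}) :=
    Ring.HasFiniteQuotients.finiteQuotient hne
  have hout : ∀ x : 𝓞 F ⧸ Ideal.span {π ^ N}, ∃ r : 𝓞 F, Ideal.Quotient.mk _ r = x :=
    Ideal.Quotient.mk_surjective
  choose r hr using hout
  obtain ⟨x₀, hx₀⟩ := Finite.exists_max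
    (fun x : ι → 𝓞 F ⧸ Ideal.span {π ^ N} => ‖H (fun i => r (x i)) - u‖)
  refine ⟨‖H (fun i => r (x₀ i)) - u‖, norm_nonneg _, hu _, fun a => ?_⟩
  · have h1 : H a = H (fun i => r (Ideal.Quotient.mk _ (a i))) := by
      refine Fn_perR hL h _ _ fun k => ?_
      rw [← Ideal.mem_span_singleton, ← Ideal.Quotient.eq]
      exact (hr _).symm
    rw [h1]
    exact hx₀ (fun i => Ideal.Quotient.mk _ (a i))




theorem Fn_invR (hL : OkR π L) {H : (ι → 𝓞 F) → C} (h : L.Fn N ι H) {u : C} (h1 : ‖u‖ = 1)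
    (hu : ∀ a, ‖H a - u‖ < 1) : L.Fn N ι (fun a => (H a)⁻¹) := by
  obtain ⟨ρ, hρ0, hρ1, hρ⟩ := Fn_unifR hL h u hu
  have hs := hL.small
  have hu0 : u ≠ 0 := by
    intro h0
    rw [h0, norm_zero] at h1
    exact zero_ne_one h1
  have hui : ‖u⁻¹‖ = 1 := by rw [norm_inv, h1, inv_one]
  have hHn : ∀ a, ‖H a‖ = 1 := by
    intro a
    have h2 : H a = u + (H a - u) := by ring
    have h3 : ‖u‖ ≠ ‖H a - u‖ := by
      rw [h1]
      exact (hu a).ne'
    rw [h2, IsUltrametricDist.norm_add_eq_max_of_norm_ne_norm h3, h1]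
    exact max_eq_left (hu a).le
  have hH0 : ∀ a, H a ≠ 0 := by
    intro a h0
    have := hHn a
    rw [h0, norm_zero] at this
    exact zero_ne_one this
  set G : (ι → 𝓞 F) → C := fun a => 1 - u⁻¹ * H a with hG
  have hGF : L.Fn N ι G := Fn_sub (Fn_const (by simp)) (Fn_scal hs hui.le h)
  have hGn : ∀ a, ‖G a‖ ≤ ρ := by
    intro a
    have h2 : G a = - (u⁻¹ * (H a - u)) := by
      simp only [hG]
      field_simp
      ring
    rw [h2, norm_neg, norm_mul, hui, one_mul]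
    exact hρ a
  apply Fn_lim
  intro ε hε
  obtain ⟨n, hn⟩ := exists_pow_lt_of_lt_one hε hρ1
  refine ⟨fun a => u⁻¹ * ∑ k ∈ Finset.range n, G a ^ k, ?_, ?_⟩
  · exact Fn_scal hs hui.le (Fn_sum _ (fun k _ => Fn_pow hs hGF k))
  · intro a
    have h2 : u⁻¹ * H a = 1 - G a := by
      simp only [hG]
      ring
    have h3 : H a * (u⁻¹ * ∑ k ∈ Finset.range n, G a ^ k) = 1 - G a ^ n := by
      calc H a * (u⁻¹ * ∑ k ∈ Finset.range n, G a ^ k)
          = (u⁻¹ * H a) * ∑ k ∈ Finset.range n, G a ^ k := by ring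
        _ = (1 - G a) * ∑ k ∈ Finset.range n, G a ^ k := by rw [h2]
        _ = 1 - G a ^ n := mul_neg_geom_sum (G a) n
    have h4 : (H a)⁻¹ - u⁻¹ * ∑ k ∈ Finset.range n, G a ^ k = (H a)⁻¹ * G a ^ n := by
      have h5 : u⁻¹ * ∑ k ∈ Finset.range n, G a ^ k = (H a)⁻¹ * (1 - G a ^ n) := by
        rw [← h3, ← mul_assoc, inv_mul_cancel₀ (hH0 a), one_mul]
      rw [h5]
      ring
    rw [h4, norm_mul, norm_inv, hHn a, inv_one, one_mul, norm_pow]
    exact (pow_le_pow_left₀ (norm_nonneg _) (hGn a) n).trans hn.le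


theorem Fn_vR (hL : OkR π L) {A B : C} (hA : ‖A‖ ≤ 1) (hB : ‖B‖ ≤ 1) {t v : (ι → 𝓞 F) → C}
    (ht : L.Fn N ι t) (ht1 : ∀ a, ‖t a‖ < 1) (hv1 : ∀ a, ‖v a‖ ≤ 1)
    (hv : ∀ a, v a = 1 + A * t a ^ 4 * v a ^ 2 + B * t a ^ 6 * v a ^ 3) : L.Fn N ι v := by
  have hs := hL.small
  obtain ⟨ρ, hρ0, hρ1, hρ⟩ := Fn_unifR hL ht 0 (fun a => by rw [sub_zero]; exact ht1 a)
  have hseq : ∀ n, L.Fn N ι (a4_seq A B t n) := by
    intro n
    induction n with
    | zero => exact Fn_const (c := (1 : C)) (le_of_eq norm_one)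
    | succ n ih =>
      exact Fn_add (Fn_add (Fn_const (c := (1 : C)) (le_of_eq norm_one))
        (Fn_scal hs hA (Fn_mul hs (Fn_pow hs ht 4) (Fn_pow hs ih 2))))
        (Fn_scal hs hB (Fn_mul hs (Fn_pow hs ht 6) (Fn_pow hs ih 3)))
  have hdist : ∀ n a, ‖v a - a4_seq A B t n a‖ ≤ ρ ^ n := by
    intro n a
    induction n with
    | zero =>
      rw [pow_zero]
      have h1 : a4_seq A B t 0 a = 1 := rfl
      rw [h1, sub_eq_add_neg]
      exact a4e_add (hv1 a) (by rw [norm_neg, norm_one])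
    | succ n ih =>
      have hw := Fn_le hs (hseq n) a
      have ht0 : ‖t a‖ ≤ ρ := by
        have := hρ a
        rwa [sub_zero] at this
      have ht4 : ‖t a‖ ^ 4 ≤ ρ := by
        have h1 : ‖t a‖ ^ 4 ≤ ‖t a‖ := by
          have := pow_le_pow_of_le_one (norm_nonneg (t a)) (ht1 a).le (show 1 ≤ 4 by norm_num)
          rwa [pow_one] at this
        exact h1.trans ht0
      have ht6 : ‖t a‖ ^ 6 ≤ ρ := by
        have h1 : ‖t a‖ ^ 6 ≤ ‖t a‖ := by
          have := pow_le_pow_of_le_one (norm_nonneg (t a)) (ht1 a).le (show 1 ≤ 6 by norm_num)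
          rwa [pow_one] at this
        exact h1.trans ht0
      have h1 : v a - a4_seq A B t (n + 1) a =
          A * (t a ^ 4 * ((v a - a4_seq A B t n a) * (v a + a4_seq A B t n a))) +
            B * (t a ^ 6 * ((v a - a4_seq A B t n a) *
              (v a ^ 2 + v a * a4_seq A B t n a + a4_seq A B t n a ^ 2))) := by
        have h2 : a4_seq A B t (n + 1) a = 1 + A * (t a ^ 4 * a4_seq A B t n a ^ 2) +
          B * (t a ^ 6 * a4_seq A B t n a ^ 3) := rfl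
        rw [h2]
        nth_rewrite 1 [hv a]
        ring
      rw [h1, pow_succ ρ n]
      have hρn : 0 ≤ ρ ^ n := pow_nonneg hρ0 n
      have key : ∀ {c s x : C}, ‖c‖ ≤ 1 → ‖s‖ ≤ ρ → ‖x‖ ≤ 1 →
          ‖c * (s * ((v a - a4_seq A B t n a) * x))‖ ≤ ρ ^ n * ρ := by
        intro c s x hc hs' hx
        rw [norm_mul, norm_mul, norm_mul]
        have e1 : ‖v a - a4_seq A B t n a‖ * ‖x‖ ≤ ρ ^ n * 1 :=
          mul_le_mul ih hx (norm_nonneg _) hρn
        rw [mul_one] at e1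
        have e2 : ‖s‖ * (‖v a - a4_seq A B t n a‖ * ‖x‖) ≤ ρ * ρ ^ n :=
          mul_le_mul hs' e1 (mul_nonneg (norm_nonneg _) (norm_nonneg _)) hρ0
        have e3 : ‖c‖ * (‖s‖ * (‖v a - a4_seq A B t n a‖ * ‖x‖)) ≤ 1 * (ρ * ρ ^ n) :=
          mul_le_mul hc e2 (mul_nonneg (norm_nonneg _) (mul_nonneg (norm_nonneg _) (norm_nonneg _)))
            zero_le_one
        rw [one_mul] at e3
        rw [mul_comm (ρ ^ n) ρ]
        exact e3
      have hvv : ‖v a ^ 2‖ ≤ 1 := by rw [norm_pow]; exact pow_le_one₀ (norm_nonneg _) (hv1 a)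
      have hww : ‖a4_seq A B t n a ^ 2‖ ≤ 1 := by rw [norm_pow]; exact pow_le_one₀ (norm_nonneg _) hw
      have hvw : ‖v a * a4_seq A B t n a‖ ≤ 1 := by
        rw [norm_mul]; exact mul_le_one₀ (hv1 a) (norm_nonneg _) hw
      have ht4' : ‖t a ^ 4‖ ≤ ρ := by rw [norm_pow]; exact ht4
      have ht6' : ‖t a ^ 6‖ ≤ ρ := by rw [norm_pow]; exact ht6
      exact a4e_add (key hA ht4' (a4e_add (hv1 a) hw)) (key hB ht6' (a4e_add (a4e_add hvv hvw) hww))
  refine Fn_lim fun ε hε => ?_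
  obtain ⟨n, hn⟩ := exists_pow_lt_of_lt_one hε hρ1
  exact ⟨a4_seq A B t n, hseq n, fun a => (hdist n a).trans hn.le⟩


end SSG.V
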