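import Mathlib
import Pool.Agent.Lib.H55K.D0
import Pool.Agent.Lib.SSG.E.A7
import Pool.Agent.Lib.SSG.V.V9

/-! # SSG, part V: the local model at a prime element π (ordinary case) -/

open NumberField IsDedekindDomain WeierstrassCurve

namespace SSG.V

open SSG
open H55P (IQ embF eF LF Per IsHecke Pt ac Inert Dec)
open H35P (WAB Ker tt)
open H55K

/-- The frame of the coordinates x/y of the multiples of the points T N. -/
noncomputable def LR {F : Type} [Field F] [NumberField F] {A B : F} {Ω : Type} [Field Ω] [DecidableEq Ω] [Algebra F Ω]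
    (act : 𝓞 F →+* AddMonoid.End (Pt (WAB A B) Ω)) {C : Type} [NormedField C] (i : Ω →+* C)
    (T : ℕ → Pt (WAB A B) Ω) : LTF F C where
  X := fun N a => i (tt (act a (T N)))
  z := fun _ => 0

/-- The local model at the valuation ring V of Ω above the prime element π of degree one: an embedding i of Ω in ℂ_[p] inducing V, the points
T N of order π^N with parameter 1/π^N, and the coordinate x/y of the combinations of multiples of T N as integral function of the coordinates. -/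
structure LocR {F : Type} [Field F] [NumberField F] [IQ F] (A B : F) (Om : ℂ) {Ω : Type} [Field Ω] [DecidableEq Ω]
    [Algebra F Ω] (j : Ω →+* ℂ) (act : 𝓞 F →+* AddMonoid.End (Pt (WAB A B) Ω)) (p : ℕ) [Fact p.Prime] (π : 𝓞 F)
    (V : ValuationSubring Ω) (i : Ω →+* ℂ_[p]) (T : ℕ → Pt (WAB A B) Ω) : Prop where
  val : ∀ x : Ω, x ∈ V ↔ ‖i x‖ ≤ 1
  ne : π ≠ 0
  zero : ∀ N (a : 𝓞 F), act a (T N) = 0 ↔ π ^ N ∣ a
  down : ∀ N, act π (T (N + 1)) = T N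
  unif : ∀ N (a : 𝓞 F), ¬ π ^ N ∣ a →
    j (xc (act a (T N))) = (LF F).weierstrassP (eF F a / (eF F π) ^ N) / Om ^ 2 ∧
    j (yc (act a (T N))) = (LF F).derivWeierstrassP (eF F a / (eF F π) ^ N) / (2 * Om ^ 3)
  ker : ∀ N (a : 𝓞 F), Ker V (act a (T N))
  fn : ∀ (N : ℕ) (ι : Type) [Fintype ι] (c : ι → 𝓞 F),
    (LR act i T).Fn N ι (fun a => i (tt (act (∑ k, c k * a k) (T N))))

variable {F : Type} [Field F] [NumberField F] [IQ F] {A B : F} {Om : ℂ} {Ω : Type} [Field Ω] [DecidableEq Ω]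
  [Algebra F Ω] {j : Ω →+* ℂ} {act : 𝓞 F →+* AddMonoid.End (Pt (WAB A B) Ω)} {p : ℕ} [Fact p.Prime] {π : 𝓞 F}
  {V : ValuationSubring Ω} {i : Ω →+* ℂ_[p]} {T : ℕ → Pt (WAB A B) Ω}



theorem loc_leR (hL : LocR A B Om j act p π V i T) (x : Ω) : V.valuation x ≤ 1 ↔ ‖i x‖ ≤ 1 := by
  rw [V.valuation_le_one_iff]
  exact hL.val x

theorem loc_ltR (hL : LocR A B Om j act p π V i T) (x : Ω) : V.valuation x < 1 ↔ ‖i x‖ < 1 := by
  rcases eq_or_ne x 0 with rfl | hx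
  · simp
  · have h1 := loc_leR hL x⁻¹
    have hvx : V.valuation x ≠ 0 := (Valuation.ne_zero_iff _).2 hx
    have hix : i x ≠ 0 := (map_ne_zero i).2 hx
    have h2 : V.valuation x < 1 ↔ ¬ V.valuation x⁻¹ ≤ 1 := by
      rw [map_inv₀, not_le, one_lt_inv₀ (zero_lt_iff.2 hvx)]
    have h3 : ‖i x‖ < 1 ↔ ¬ ‖i x⁻¹‖ ≤ 1 := by
      rw [map_inv₀, norm_inv, not_le, one_lt_inv₀ (norm_pos_iff.2 hix)]
    rw [h2, h3, h1]

theorem loc_eqR (hL : LocR A B Om j act p π V i T) (x : Ω) : V.valuation x = 1 ↔ ‖i x‖ = 1 := by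
  rw [le_antisymm_iff, le_antisymm_iff, ← not_lt, ← not_lt, ← not_lt, ← not_lt, loc_ltR hL x, not_lt, not_lt, not_lt,
    loc_leR hL x]

theorem a7_ltR (hV : GV A B V) (hL : LocR A B Om j act p π V i T) (N : ℕ) (a : 𝓞 F) :
    ‖i (tt (act a (T N)))‖ < 1 := (loc_ltR hL _).1 (ttlt hV (hL.ker N a))

theorem okR (hV : GV A B V) (hL : LocR A B Om j act p π V i T) : OkR π (LR act i T) where
  ne := hL.ne
  small := fun N a => a7_ltR hV hL N a
  per := fun N a b hab => by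
    have h1 : act a (T N) = act b (T N) := by
      have h2 := (hL.zero N (a - b)).2 hab
      rw [map_sub] at h2
      exact sub_eq_zero.1 h2
    show i (tt (act a (T N))) = i (tt (act b (T N)))
    rw [h1]

theorem fn_vvR (hV : GV A B V) (hL : LocR A B Om j act p π V i T) (N : ℕ) {ι : Type} [Fintype ι] (c : ι → 𝓞 F) :
    (LR act i T).Fn N ι (fun a => i (vv (act (∑ k, c k * a k) (T N)))) := by
  have hA : ‖i (algebraMap F Ω A)‖ ≤ 1 := (hL.val _).1 hV.a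
  have hB : ‖i (algebraMap F Ω B)‖ ≤ 1 := (hL.val _).1 hV.b
  refine Fn_vR (okR hV hL) hA hB (hL.fn N ι c) (fun a => a7_ltR hV hL N _)
    (fun a => (loc_leR hL _).1 (vv_eq hV (hL.ker N _)).2.1) fun a => ?_
  have h1 := (vv_eq hV (hL.ker N (∑ k, c k * a k))).1
  have h2 := congrArg i h1
  simpa only [map_add, map_mul, map_pow, map_one] using h2

theorem a7_oneR (hV : GV A B V) (hL : LocR A B Om j act p π V i T) (N : ℕ) (s : 𝓞 F) {x : ℂ_[p]} (hx : ‖x‖ ≤ 1) :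
    ‖(1 - x * i (tt (act s (T N))) ^ 2 * i (vv (act s (T N)))) - 1‖ < 1 := by
  have ht := a7_ltR hV hL N s
  have hv : ‖i (vv (act s (T N)))‖ ≤ 1 := (loc_leR hL _).1 (vv_eq hV (hL.ker N s)).2.1
  have e : (1 - x * i (tt (act s (T N))) ^ 2 * i (vv (act s (T N)))) - 1 =
      -(x * i (tt (act s (T N))) ^ 2 * i (vv (act s (T N)))) := by ring
  rw [e, norm_neg, norm_mul, norm_mul, norm_pow]
  calc ‖x‖ * ‖i (tt (act s (T N)))‖ ^ 2 * ‖i (vv (act s (T N)))‖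
      ≤ 1 * ‖i (tt (act s (T N)))‖ ^ 2 * 1 := by gcongr
    _ < 1 := by
      rw [one_mul, mul_one]
      exact pow_lt_one₀ (norm_nonneg _) ht (by norm_num)

theorem a7_invR (hV : GV A B V) (hL : LocR A B Om j act p π V i T) (N : ℕ) {ι : Type} [Fintype ι] (c : ι → 𝓞 F)
    {x : ℂ_[p]} (hx : ‖x‖ ≤ 1) (n : ℕ) : (LR act i T).Fn N ι (fun a => (i (vv (act (∑ k, c k * a k) (T N))) *
      (1 - x * i (tt (act (∑ k, c k * a k) (T N))) ^ 2 * i (vv (act (∑ k, c k * a k) (T N)))) ^ n)⁻¹) := by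
  have hs := (okR hV hL).small
  refine Fn_invR (okR hV hL) (u := 1) ?_ norm_one fun a => ?_
  · exact Fn_mul hs (fn_vvR hV hL N c) (Fn_pow hs (Fn_sub (Fn_const norm_one.le)
      (Fn_mul hs (Fn_scal hs hx (Fn_pow hs (hL.fn N ι c) 2)) (fn_vvR hV hL N c))) n)
  · refine a7_mulone ?_ (a7_powone (a7_oneR hV hL N _ hx) n)
    have h1 := (loc_ltR hL _).1 (vv_eq hV (hL.ker N (∑ k, c k * a k))).2.2
    rwa [map_sub, map_one] at h1

theorem fn_xR (hV : GV A B V) (hL : LocR A B Om j act p π V i T) (N : ℕ) {ι : Type} [Fintype ι] (c : ι → 𝓞 F)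
    {P : Pt (WAB A B) Ω} (hP : ¬ Ker V P) : (LR act i T).Fn N ι (fun a => i (xc (P + act (∑ k, c k * a k) (T N)))) := by
  have hs := (okR hV hL).small
  have hA : ‖i (algebraMap F Ω A)‖ ≤ 1 := (hL.val _).1 hV.a
  have hB : ‖i (algebraMap F Ω B)‖ ≤ 1 := (hL.val _).1 hV.b
  have hx : ‖i (xc P)‖ ≤ 1 := (loc_leR hL _).1 (not_ker V hP).2
  have hy : ‖i (yc P)‖ ≤ 1 := (loc_leR hL _).1 (gv_y hV hP)
  have ht := hL.fn N ι c
  have hv := fn_vvR hV hL N c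
  have e : (fun a : ι → 𝓞 F => i (xc (P + act (∑ k, c k * a k) (T N)))) = fun a =>
      (i (algebraMap F Ω A) * i (tt (act (∑ k, c k * a k) (T N))) ^ 2 * i (vv (act (∑ k, c k * a k) (T N))) ^ 2 +
        i (algebraMap F Ω B) * i (tt (act (∑ k, c k * a k) (T N))) ^ 4 * i (vv (act (∑ k, c k * a k) (T N))) ^ 3 -
        ((2 : ℕ) : ℂ_[p]) * i (yc P) * i (tt (act (∑ k, c k * a k) (T N))) * i (vv (act (∑ k, c k * a k) (T N))) ^ 2 +
        i (yc P) ^ 2 * i (tt (act (∑ k, c k * a k) (T N))) ^ 4 * i (vv (act (∑ k, c k * a k) (T N))) ^ 3 +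
        ((2 : ℕ) : ℂ_[p]) * i (xc P) * i (vv (act (∑ k, c k * a k) (T N))) -
        i (xc P) ^ 2 * i (tt (act (∑ k, c k * a k) (T N))) ^ 2 * i (vv (act (∑ k, c k * a k) (T N))) ^ 2) *
        (i (vv (act (∑ k, c k * a k) (T N))) *
          (1 - i (xc P) * i (tt (act (∑ k, c k * a k) (T N))) ^ 2 * i (vv (act (∑ k, c k * a k) (T N)))) ^ 2)⁻¹ -
        i (xc P) := by
    funext a
    rw [(add_xy hV hP (hL.ker N (∑ k, c k * a k))).1]
    simp only [nX, map_sub, map_mul, map_add, map_inv₀, map_pow, map_one, map_ofNat, Nat.cast_ofNat]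
  rw [e]
  have hxx : ‖i (xc P) ^ 2‖ ≤ 1 := by rw [norm_pow]; exact pow_le_one₀ (norm_nonneg _) hx
  have hyy : ‖i (yc P) ^ 2‖ ≤ 1 := by rw [norm_pow]; exact pow_le_one₀ (norm_nonneg _) hy
  have h2x : ‖((2 : ℕ) : ℂ_[p]) * i (xc P)‖ ≤ 1 := by
    rw [norm_mul]; exact mul_le_one₀ (a7_nat 2) (norm_nonneg _) hx
  have h2y : ‖((2 : ℕ) : ℂ_[p]) * i (yc P)‖ ≤ 1 := by
    rw [norm_mul]; exact mul_le_one₀ (a7_nat 2) (norm_nonneg _) hy
  refine Fn_sub (Fn_mul hs ?_ (a7_invR hV hL N c hx 2)) (Fn_const hx)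
  refine Fn_sub (Fn_add (Fn_add (Fn_sub (Fn_add ?_ ?_) ?_) ?_) ?_) ?_
  · exact Fn_mul hs (Fn_scal hs hA (Fn_pow hs ht 2)) (Fn_pow hs hv 2)
  · exact Fn_mul hs (Fn_scal hs hB (Fn_pow hs ht 4)) (Fn_pow hs hv 3)
  · exact Fn_mul hs (Fn_scal hs h2y ht) (Fn_pow hs hv 2)
  · exact Fn_mul hs (Fn_scal hs hyy (Fn_pow hs ht 4)) (Fn_pow hs hv 3)
  · exact Fn_scal hs h2x hv
  · exact Fn_mul hs (Fn_scal hs hxx (Fn_pow hs ht 2)) (Fn_pow hs hv 2)

theorem fn_yR (hV : GV A B V) (hL : LocR A B Om j act p π V i T) (N : ℕ) {ι : Type} [Fintype ι] (c : ι → 𝓞 F)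
    {P : Pt (WAB A B) Ω} (hP : ¬ Ker V P) : (LR act i T).Fn N ι (fun a => i (yc (P + act (∑ k, c k * a k) (T N)))) := by
  have hs := (okR hV hL).small
  have hA : ‖i (algebraMap F Ω A)‖ ≤ 1 := (hL.val _).1 hV.a
  have hB : ‖i (algebraMap F Ω B)‖ ≤ 1 := (hL.val _).1 hV.b
  have hx : ‖i (xc P)‖ ≤ 1 := (loc_leR hL _).1 (not_ker V hP).2
  have hy : ‖i (yc P)‖ ≤ 1 := (loc_leR hL _).1 (gv_y hV hP)
  have ht := hL.fn N ι c
  have hv := fn_vvR hV hL N c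
  have e : (fun a : ι → 𝓞 F => i (yc (P + act (∑ k, c k * a k) (T N)))) = fun a =>
      -i (yc P) - (1 - i (yc P) * i (tt (act (∑ k, c k * a k) (T N))) ^ 3 * i (vv (act (∑ k, c k * a k) (T N)))) *
      (i (algebraMap F Ω A) * i (tt (act (∑ k, c k * a k) (T N))) * i (vv (act (∑ k, c k * a k) (T N))) ^ 2 +
        i (algebraMap F Ω B) * i (tt (act (∑ k, c k * a k) (T N))) ^ 3 * i (vv (act (∑ k, c k * a k) (T N))) ^ 3 -
        ((2 : ℕ) : ℂ_[p]) * i (yc P) * i (vv (act (∑ k, c k * a k) (T N))) ^ 2 +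
        i (yc P) ^ 2 * i (tt (act (∑ k, c k * a k) (T N))) ^ 3 * i (vv (act (∑ k, c k * a k) (T N))) ^ 3 +
        ((3 : ℕ) : ℂ_[p]) * i (xc P) ^ 2 * i (tt (act (∑ k, c k * a k) (T N))) * i (vv (act (∑ k, c k * a k) (T N))) ^ 2 -
        ((2 : ℕ) : ℂ_[p]) * i (xc P) ^ 3 * i (tt (act (∑ k, c k * a k) (T N))) ^ 3 *
          i (vv (act (∑ k, c k * a k) (T N))) ^ 3) *
        (i (vv (act (∑ k, c k * a k) (T N))) *
          (1 - i (xc P) * i (tt (act (∑ k, c k * a k) (T N))) ^ 2 * i (vv (act (∑ k, c k * a k) (T N)))) ^ 3)⁻¹ := by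
    funext a
    rw [(add_xy hV hP (hL.ker N (∑ k, c k * a k))).2]
    simp only [nY, map_sub, map_mul, map_add, map_inv₀, map_pow, map_one, map_neg, map_ofNat, Nat.cast_ofNat]
  rw [e]
  have hyy : ‖i (yc P) ^ 2‖ ≤ 1 := by rw [norm_pow]; exact pow_le_one₀ (norm_nonneg _) hy
  have h2y : ‖((2 : ℕ) : ℂ_[p]) * i (yc P)‖ ≤ 1 := by
    rw [norm_mul]; exact mul_le_one₀ (a7_nat 2) (norm_nonneg _) hy
  have h3x : ‖((3 : ℕ) : ℂ_[p]) * i (xc P) ^ 2‖ ≤ 1 := by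
    rw [norm_mul, norm_pow]; exact mul_le_one₀ (a7_nat 3) (pow_nonneg (norm_nonneg _) _) (pow_le_one₀ (norm_nonneg _) hx)
  have h2x : ‖((2 : ℕ) : ℂ_[p]) * i (xc P) ^ 3‖ ≤ 1 := by
    rw [norm_mul, norm_pow]; exact mul_le_one₀ (a7_nat 2) (pow_nonneg (norm_nonneg _) _) (pow_le_one₀ (norm_nonneg _) hx)
  refine Fn_sub (Fn_neg (Fn_const hy)) (Fn_mul hs (Fn_mul hs (Fn_sub (Fn_const norm_one.le)
    (Fn_mul hs (Fn_scal hs hy (Fn_pow hs ht 3)) hv)) ?_) (a7_invR hV hL N c hx 3))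
  refine Fn_sub (Fn_add (Fn_add (Fn_sub (Fn_add ?_ ?_) ?_) ?_) ?_) ?_
  · exact Fn_mul hs (Fn_scal hs hA ht) (Fn_pow hs hv 2)
  · exact Fn_mul hs (Fn_scal hs hB (Fn_pow hs ht 3)) (Fn_pow hs hv 3)
  · exact Fn_scal hs h2y (Fn_pow hs hv 2)
  · exact Fn_mul hs (Fn_scal hs hyy (Fn_pow hs ht 3)) (Fn_pow hs hv 3)
  · exact Fn_mul hs (Fn_scal hs h3x ht) (Fn_pow hs hv 2)
  · exact Fn_mul hs (Fn_scal hs h2x (Fn_pow hs ht 3)) (Fn_pow hs hv 3)

theorem x_congR (hV : GV A B V) (hL : LocR A B Om j act p π V i T) (N : ℕ) (a : 𝓞 F)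
    {P : Pt (WAB A B) Ω} (hP : ¬ Ker V P) : ‖i (xc (P + act a (T N))) - i (xc P)‖ < 1 := by
  rw [← map_sub, ← loc_ltR hL]
  have hR := hL.ker N a
  have h1 := (transl hV hP hR).2.1
  have ht := ttlt hV hR
  have hy := gv_y hV hP
  have e : xc (P + act a (T N)) - xc P = (xc (P + act a (T N)) - xc P + 2 * yc P * tt (act a (T N))) -
      2 * yc P * tt (act a (T N)) := by ring
  rw [e]
  refine V.valuation.map_sub_lt ?_ ?_
  · exact h1.trans_lt (pow_lt_one₀ zero_le ht (by norm_num))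
  · rw [map_mul, map_mul]
    calc _ ≤ 1 * V.valuation (tt (act a (T N))) := by
          refine mul_le_mul_left ?_ _
          exact mul_le_one' hV.two.le hy
      _ < 1 := by rw [one_mul]; exact ht


end SSG.V
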