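import Mathlib
import Pool.Agent.Lib.SSG.E.A9
import Pool.Agent.Lib.H55K.G4C
import Pool.Agent.Lib.SSG.V.V10

/-! # SSG, part V: one second difference as function of the torsion point of π-power order -/

open NumberField IsDedekindDomain WeierstrassCurve

namespace SSG.V

open SSG
open H55P (IQ embF eF LF Per IsHecke Pt ac Inert Dec)
open H35P (WAB Ker tt)
open H55K

variable {F : Type} [Field F] [NumberField F] [IQ F] {A B : F} {Om : ℂ} {Ω : Type} [Field Ω] [DecidableEq Ω]
  [Algebra F Ω] {j : Ω →+* ℂ} {act : 𝓞 F →+* AddMonoid.End (Pt (WAB A B) Ω)} {p : ℕ} [Fact p.Prime] {π : 𝓞 F}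
  {V : ValuationSubring Ω} {i : Ω →+* ℂ_[p]} {T : ℕ → Pt (WAB A B) Ω}

theorem term_fnR (h : CMA F A B Om j act) (hV : GV A B V) (hL : LocR A B Om j act p π V i T)
    (N : ℕ) {ι : Type} [Fintype ι] (c : ι → 𝓞 F) {l τ δ : 𝓞 F} {M : 𝓞 F} (hM : M ≠ 0) (hVM : V.valuation (ak Ω M) = 1) (hl : Prime l)
    (hlp : ¬ l ∣ π) (hlM : l ∣ M) (hlδ : l ∣ δ) (hlτ : ¬ l ∣ τ) :
    ∃ hh : (ι → 𝓞 F) → Ω, (∀ a, j (hh a) = H35P.T2 (LF F)
        (eF F (∑ k, c k * a k) / (eF F π) ^ N + eF F τ / eF F M) (eF F δ / eF F M) / Om) ∧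
      (LR act i T).Fn N ι (fun a => i (hh a)) := by
  classical
  have hOm : Om ≠ 0 := h.per.ne
  have hMC : eF F M ≠ 0 := fun h0 => hM (H55P.eF_inj (h0.trans (map_zero _).symm))
  have hpC : (eF F π) ^ N ≠ 0 := pow_ne_zero N fun h0 => hL.ne (H55P.eF_inj (h0.trans (map_zero _).symm))
  by_cases hMδ : M ∣ δ
  · obtain ⟨δ', rfl⟩ := hMδ
    refine ⟨fun _ => 0, fun a => ?_, ?_⟩
    · rw [map_zero, T2_lat, zero_div]
      rw [H55P.mem_LF]
      refine ⟨δ', ?_⟩
      rw [map_mul]
      field_simp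
    · have := Fn_const (L := LR act i T) (N := N) (ι := ι) (c := (0 : ℂ_[p])) (by rw [norm_zero]; exact zero_le_one)
      simpa only [map_zero] using this
  · set q : 𝓞 F := π ^ N with hq
    have hq0 : q ≠ 0 := pow_ne_zero N hL.ne
    have hMO : M ≠ 0 := hM
    have hb0 : q * M ≠ 0 := mul_ne_zero hq0 hMO
    have hqe : eF F q = (eF F π) ^ N := by rw [hq, map_pow]
    have hbe : eF F (q * M) = (eF F π) ^ N * eF F M := by rw [map_mul, hqe]
    obtain ⟨Tb, -, -, hzero, hco⟩ := h.gen (q * M) hb0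
    -- parameters
    have hnl : ∀ a : 𝓞 F, ¬ q * M ∣ a → eF F a / eF F (q * M) ∉ (LF F).lattice := by
      intro a ha hmem
      rw [H55P.mem_LF] at hmem
      obtain ⟨y, hy⟩ := hmem
      apply ha
      refine ⟨y, H55P.eF_inj ?_⟩
      rw [map_mul, ← hy, mul_div_cancel₀]
      rw [hbe]
      exact mul_ne_zero hpC hMC
    have hUm : ∀ a : 𝓞 F, ¬ q * M ∣ a → Um A B Om j (act a Tb) (eF F a / eF F (q * M)) := fun a ha =>
      ⟨fun h0 => ha ((hzero a).1 h0), hnl a ha, (hco a ha).1, (hco a ha).2⟩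
    -- T N
    have hTN : act M Tb = T N := by
      by_cases hu : π ^ N ∣ 1
      · have h1 : T N = 0 := by
          have := (hL.zero N 1).2 hu
          rwa [a9_one] at this
        rw [h1, hzero]
        obtain ⟨c, hc⟩ := hu
        refine ⟨c, ?_⟩
        rw [hq]
        linear_combination M * hc
      · have h1 : T N ≠ 0 := by
          intro h0
          apply hu
          rw [← hL.zero N 1, a9_one, h0]
        have h2 : ¬ q * M ∣ M := by
          rintro ⟨c, hc⟩
          apply hu
          refine ⟨c, ?_⟩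
          have h3 : M * 1 = M * (q * c) := by linear_combination hc
          exact mul_left_cancel₀ hMO h3
        have h4 := hL.unif N 1 hu
        rw [a9_one] at h4
        have h5 := hUm _ h2
        have h6 : eF F M / eF F (q * M) = eF F 1 / (eF F π) ^ N := by
          rw [hbe, map_one]
          field_simp
        refine pt_ext h5.1 h1 (j.injective ?_) (j.injective ?_)
        · rw [h5.2.2.1, h6, h4.1]
        · rw [h5.2.2.2, h6, h4.2]
    -- divisibility
    have hlq : ¬ l ∣ q := by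
      intro hd
      exact hlp (hl.dvd_of_dvd_pow (hq ▸ hd : l ∣ π ^ N))
    have hlb : l ∣ q * M := hlM.mul_left q
    have hnd : ∀ (δ' s : 𝓞 F), l ∣ δ' → ¬ q * M ∣ q * τ + q * δ' + s * M := by
      intro δ' s hδ' hd
      have h1 : l ∣ q * τ + q * δ' + s * M := hlb.trans hd
      have h2 : l ∣ q * τ := by
        have h3 : q * τ = (q * τ + q * δ' + s * M) - (q * δ' + s * M) := by ring
        rw [h3]
        exact dvd_sub h1 (dvd_add (hδ'.mul_left q) (hlM.mul_left s))
      rcases hl.dvd_or_dvd h2 with h4 | h4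
      · exact hlq h4
      · exact hlτ h4
    have hndQ : ¬ q * M ∣ q * δ := by
      rintro ⟨c, hc⟩
      apply hMδ
      refine ⟨c, ?_⟩
      have h3 : q * δ = q * (M * c) := by linear_combination hc
      exact mul_left_cancel₀ hq0 h3
    -- prime to p
    have hnk : ∀ y : 𝓞 F, ¬ q * M ∣ q * y → ¬ Ker V (act (q * y) Tb) := by
      intro y hy hk
      apply hy
      rw [← hzero]
      refine tor_unit h hV hVM (T := act (q * y) Tb) ?_ hk
      show act M (act (q * y) Tb) = 0
      rw [← a9_mul, hzero]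
      exact ⟨y, by ring⟩
    have hP : ¬ Ker V (act (q * τ) Tb) := hnk τ (by
      have := hnd 0 0 (dvd_zero l)
      simpa using this)
    have hQ : ¬ Ker V (act (q * δ) Tb) := hnk δ hndQ
    have hPQ : ¬ Ker V (act (q * τ) Tb - act (q * δ) Tb) := by
      rw [← a9_sub, ← mul_sub]
      refine hnk _ ?_
      have := hnd (-δ) 0 ((dvd_neg).2 hlδ)
      have e : q * (τ - δ) = q * τ + q * (-δ) + 0 * M := by ring
      rw [e]
      exact this
    have hPQ' : ¬ Ker V (act (q * τ) Tb + act (q * δ) Tb) := by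
      rw [← a9_add, ← mul_add]
      refine hnk _ ?_
      have := hnd δ 0 hlδ
      have e : q * (τ + δ) = q * τ + q * δ + 0 * M := by ring
      rw [e]
      exact this
    have hcls := cls_diff hV hP hQ hPQ hPQ'
    rw [loc_eqR hL, map_sub] at hcls
    set P₀ := act (q * τ) Tb with hP₀
    set Q := act (q * δ) Tb with hQ₀
    have hsum : ∀ s : 𝓞 F, P₀ + act s (T N) = act (q * τ + s * M) Tb := by
      intro s
      rw [a9_add, a9_mul s, hTN]
    have hxq : ∀ s : 𝓞 F, xc (P₀ + act s (T N)) ≠ xc Q := by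
      intro s he
      have h1 := x_congR hV hL N s hP
      rw [he, norm_sub_rev] at h1
      exact (ne_of_lt h1) hcls
    have hz : ∀ s : 𝓞 F, eF F s / (eF F π) ^ N + eF F τ / eF F M = eF F (q * τ + s * M) / eF F (q * M) := by
      intro s
      rw [hbe, map_add, map_mul, map_mul, hqe]
      field_simp
      ring
    have hu : eF F δ / eF F M = eF F (q * δ) / eF F (q * M) := by
      rw [hbe, map_mul, hqe]
      field_simp
    refine ⟨fun a => 2 * yc (P₀ + act (∑ k, c k * a k) (T N)) *
      (xc (P₀ + act (∑ k, c k * a k) (T N)) - xc Q)⁻¹, fun a => ?_, ?_⟩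
    · set s := ∑ k, c k * a k with hs
      have hnd0 := hnd 0 s (dvd_zero l)
      rw [mul_zero, add_zero] at hnd0
      have hU1 : Um A B Om j (P₀ + act s (T N)) (eF F s / (eF F π) ^ N + eF F τ / eF F M) := by
        rw [hsum, hz]
        exact hUm _ hnd0
      have hU2 : Um A B Om j Q (eF F δ / eF F M) := by
        rw [hu]
        exact hUm _ hndQ
      refine (T2_val hOm hU1 hU2 ?_ ?_ (hxq s)).symm
      · rw [hz, hu, ← add_div, ← map_add]
        refine hnl _ ?_
        have := hnd δ s hlδ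
        have e : q * τ + s * M + q * δ = q * τ + q * δ + s * M := by ring
        rw [e]
        exact this
      · rw [hz, hu, ← sub_div, ← map_sub]
        refine hnl _ ?_
        have := hnd (-δ) s ((dvd_neg).2 hlδ)
        have e : q * τ + s * M - q * δ = q * τ + q * (-δ) + s * M := by ring
        rw [e]
        exact this
    · have hs := (okR hV hL).small
      have hxQ : ‖i (xc Q)‖ ≤ 1 := (loc_leR hL _).1 (not_ker V hQ).2
      have h2 : ‖(2 : ℂ_[p])‖ ≤ 1 := by
        have := a7_nat (p := p) 2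
        rwa [Nat.cast_ofNat] at this
      have e : (fun a : ι → 𝓞 F => i (2 * yc (P₀ + act (∑ k, c k * a k) (T N)) *
          (xc (P₀ + act (∑ k, c k * a k) (T N)) - xc Q)⁻¹)) = fun a =>
          2 * i (yc (P₀ + act (∑ k, c k * a k) (T N))) *
          (i (xc (P₀ + act (∑ k, c k * a k) (T N))) - i (xc Q))⁻¹ := by
        funext a
        rw [map_mul, map_mul, map_inv₀, map_sub, map_ofNat]
      rw [e]
      refine Fn_mul hs (Fn_scal hs h2 (fn_yR hV hL N c hP)) ?_
      refine Fn_invR (okR hV hL) (u := i (xc P₀) - i (xc Q))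
        (Fn_sub (fn_xR hV hL N c hP) (Fn_const hxQ)) hcls fun a => ?_
      have h3 := x_congR hV hL N (∑ k, c k * a k) hP
      have e2 : i (xc (P₀ + act (∑ k, c k * a k) (T N))) - i (xc Q) - (i (xc P₀) - i (xc Q)) =
          i (xc (P₀ + act (∑ k, c k * a k) (T N))) - i (xc P₀) := by ring
      rw [e2]
      exact h3


end SSG.V
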