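import Mathlib

/-! # SSG, part V (arbitrary number fields K at p): adapted bases

Chunk V1 (M). A set S of endomorphisms of a finite dimensional space all of whose products of e elements vanish has an adapted basis. PROOF, induction on n (all V). n = 0: trivial. Step: let W be the supremum
of the ranges of the elements of S. W ≠ ⊤: let W_i = the supremum of the ranges of the products of the lists of length i with elements in S (W_0 = ⊤); if W = ⊤ then W_i = ⊤ for all i, by induction
(W_(i+1) contains N (W_i) = N (⊤) = range N for every N in S, Submodule.map of a supremum: Submodule.map_iSup, List.prod_cons), but W_e = 0 by the hypothesis and V ≠ 0. So (Submodule.exists_le_ker_of_lt_top)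
there is a linear form f ≠ 0 with W ≤ ker f =: H, finrank H = n (LinearMap.finrank_range_add_finrank_ker), N V ≤ H for N in S. The restrictions N|H (LinearMap.restrict) satisfy the hypothesis for H (a product of
restrictions is the restriction of the product: induction on the list; state it for lists of pairs or for the set S' = {N' : H → H | ∃ N ∈ S, ∀ x : H, (N' x : V) = N x}). Induction gives a basis v' of H; v = (v0, v'),
f v0 ≠ 0 (Module.Basis.mkFinCons / Fin.cons, or LinearIndependent.fin_cons and basisOfLinearIndependentOfCardEqFinrank). N v0 in H = span of v' ; N v'_i in the span of the later ones. -/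

namespace SSG.V

theorem v1_form {k : Type} [Field k] {V : Type} [AddCommGroup V] [Module k V] [Nontrivial V] (S : Set (V →ₗ[k] V)) (e : ℕ)
    (h : ∀ l : List (V →ₗ[k] V), (∀ N ∈ l, N ∈ S) → l.length = e → l.prod = 0) :
    ∃ f : V →ₗ[k] k, f ≠ 0 ∧ ∀ N ∈ S, ∀ x, f (N x) = 0 := by
  classical
  have hex : ∃ e : ℕ, ∀ l : List (V →ₗ[k] V), (∀ N ∈ l, N ∈ S) → l.length = e → l.prod = 0 := ⟨e, h⟩
  have h0 := Nat.find_spec hex
  have h1 : Nat.find hex ≠ 0 := by
    intro h2
    have h3 := h0 [] (by simp) (by rw [h2]; rfl)
    rw [List.prod_nil] at h3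
    exact one_ne_zero h3
  obtain ⟨m, hm⟩ := Nat.exists_eq_succ_of_ne_zero h1
  have h2 := Nat.find_min hex (m := m) (by omega)
  push Not at h2
  obtain ⟨l, hl1, hl2, hl3⟩ := h2
  have h3 : LinearMap.ker l.prod < ⊤ := by
    rw [lt_top_iff_ne_top]
    intro h4
    exact hl3 (LinearMap.ker_eq_top.1 h4)
  obtain ⟨f, hf, hfl⟩ := Submodule.exists_le_ker_of_lt_top _ h3
  refine ⟨f, hf, fun N hN x => ?_⟩
  have h4 : N x ∈ LinearMap.ker l.prod := by
    rw [LinearMap.mem_ker]
    have h5 := h0 (l ++ [N]) (by
      intro M hM
      rcases List.mem_append.1 hM with h6 | h6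
      · exact hl1 M h6
      · rw [List.mem_singleton.1 h6]
        exact hN) (by rw [List.length_append, hl2, List.length_singleton, hm])
    rw [List.prod_append, List.prod_singleton] at h5
    have h6 := congrArg (fun T : V →ₗ[k] V => T x) h5
    exact h6
  exact hfl h4

theorem adapted {k : Type} [Field k] (n : ℕ) : ∀ (V : Type) [AddCommGroup V] [Module k V] [FiniteDimensional k V],
    Module.finrank k V = n → ∀ (S : Set (V →ₗ[k] V)) (e : ℕ),
      (∀ l : List (V →ₗ[k] V), (∀ N ∈ l, N ∈ S) → l.length = e → l.prod = 0) →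
        ∃ v : Module.Basis (Fin n) k V, ∀ N ∈ S, ∀ i, N (v i) ∈ Submodule.span k (v '' {j | i < j}) := by
  induction n with
  | zero =>
    intro V _ _ _ hV S e _
    exact ⟨Module.finBasisOfFinrankEq k V hV, fun N _ i => i.elim0⟩
  | succ n ih =>
    intro V _ _ _ hV S e hS
    have hnt : Nontrivial V := Module.nontrivial_of_finrank_pos (R := k) (by omega)
    obtain ⟨f, hf, hfS⟩ := v1_form S e hS
    have hsurj : Function.Surjective f := LinearMap.surjective hf
    obtain ⟨v0, hv0⟩ := hsurj 1
    have hker : Module.finrank k (LinearMap.ker f) = n := by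
      have h1 := LinearMap.finrank_range_add_finrank_ker f
      rw [LinearMap.range_eq_top.2 hsurj, finrank_top, Module.finrank_self, hV] at h1
      omega
    have hpr : ∀ l' : List (LinearMap.ker f →ₗ[k] LinearMap.ker f),
        (∀ N' ∈ l', N' ∈ {N' : LinearMap.ker f →ₗ[k] LinearMap.ker f | ∃ N ∈ S, ∀ x, (N' x : V) = N x}) →
        ∃ l : List (V →ₗ[k] V), (∀ N ∈ l, N ∈ S) ∧ l.length = l'.length ∧ ∀ x, (l'.prod x : V) = l.prod x := by
      intro l'
      induction l' with
      | nil =>
        intro _
        exact ⟨[], by simp, rfl, fun x => rfl⟩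
      | cons N' l' ihl =>
        intro h
        obtain ⟨l, h1, h2, h3⟩ := ihl (fun M hM => h M (List.mem_cons_of_mem _ hM))
        obtain ⟨N, hN, hN'⟩ := h N' List.mem_cons_self
        refine ⟨N :: l, ?_, ?_, ?_⟩
        · intro M hM
          rcases List.mem_cons.1 hM with h4 | h4
          · rw [h4]
            exact hN
          · exact h1 M h4
        · rw [List.length_cons, List.length_cons, h2]
        · intro x
          rw [List.prod_cons, List.prod_cons, Module.End.mul_apply, Module.End.mul_apply, hN', h3]
    obtain ⟨v', hv'⟩ := ih (LinearMap.ker f) hker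
      {N' : LinearMap.ker f →ₗ[k] LinearMap.ker f | ∃ N ∈ S, ∀ x, (N' x : V) = N x} e (by
        intro l' hl' hlen
        obtain ⟨l, h1, h2, h3⟩ := hpr l' hl'
        have h4 := hS l h1 (h2.trans hlen)
        apply LinearMap.ext
        intro x
        apply Subtype.ext
        rw [h3 x, h4]
        rfl)
    let v : Module.Basis (Fin (n + 1)) k V := Module.Basis.mkFinCons v0 v' (by
      intro c x hx hcx
      have h1 := congrArg f hcx
      rw [map_add, map_smul, hv0, LinearMap.mem_ker.1 hx, map_zero, add_zero, smul_eq_mul, mul_one] at h1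
      exact h1) (by
      intro z
      refine ⟨- f z, ?_⟩
      rw [LinearMap.mem_ker, map_add, map_smul, hv0, smul_eq_mul, mul_one, add_neg_cancel])
    have hvs : ∀ j, v (Fin.succ j) = (v' j : V) := by
      intro j
      show (Module.Basis.mkFinCons v0 v' _ _ : Fin (n + 1) → V) (Fin.succ j) = _
      rw [Module.Basis.coe_mkFinCons, Fin.cons_succ]
      rfl
    have hspan : ∀ (T : Set (Fin n)) (y : LinearMap.ker f), y ∈ Submodule.span k (v' '' T) →
        (y : V) ∈ Submodule.span k (v '' (Fin.succ '' T)) := by
      intro T y hy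
      have h1 : (y : V) ∈ Submodule.map (LinearMap.ker f).subtype (Submodule.span k (v' '' T)) :=
        ⟨y, hy, rfl⟩
      rw [Submodule.map_span] at h1
      refine Submodule.span_mono ?_ h1
      rintro _ ⟨_, ⟨j, hj, rfl⟩, rfl⟩
      exact ⟨Fin.succ j, ⟨j, hj, rfl⟩, hvs j⟩
    refine ⟨v, fun N hN i => ?_⟩
    refine Fin.cases ?_ (fun i' => ?_) i
    · have h1 := hspan Set.univ ⟨N (v 0), hfS N hN _⟩ (by
        rw [Set.image_univ, v'.span_eq]
        exact Submodule.mem_top)
      refine Submodule.span_mono (Set.image_mono ?_) h1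
      rintro _ ⟨j, -, rfl⟩
      exact Fin.succ_pos j
    · have h3 := hv' ((N.domRestrict (LinearMap.ker f)).codRestrict (LinearMap.ker f)
        (fun x => hfS N hN _)) ⟨N, hN, fun x => rfl⟩ i'
      have h4 := hspan _ _ h3
      rw [hvs]
      refine Submodule.span_mono (Set.image_mono ?_) h4
      rintro _ ⟨j, hj, rfl⟩
      exact Fin.succ_lt_succ_iff.2 hj

end SSG.V
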