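import Mathlib

/-! # SSG, part V: unitriangular families

Chunk V2 (S). PROOF. If sum c_i w_i = 0 with c ≠ 0 let i be the least index with c_i ≠ 0: the coefficient of v_i in sum c_j w_j = c_i (v.repr: w_j - v_j is in the span of the v_l, l > j, so (v.repr (w_j)) i = 0 for
j > i and = 1 for j = i; the terms with j < i have c_j = 0). Or: the matrix of w in the basis v is upper unitriangular, its determinant is 1 (Matrix.det_of_upperTriangular), so w is a basis. For Module.Basis use
Module.Basis.mem_span_image / Module.Basis.repr_support_subset_of_mem_span. -/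

namespace SSG.V

theorem v2_coord {k : Type} [Field k] {n : ℕ} {V : Type} [AddCommGroup V] [Module k V] (v : Module.Basis (Fin n) k V)
    {x : V} {j : Fin n} (hx : x ∈ Submodule.span k (v '' {l | j < l})) {i : Fin n} (hi : i ≤ j) : v.repr x i = 0 := by
  have h1 := v.repr_support_subset_of_mem_span _ hx
  by_contra h
  have h2 : i ∈ ({l | j < l} : Set (Fin n)) := h1 (Finsupp.mem_support_iff.2 h)
  exact absurd h2 (not_lt.2 hi)

theorem unitri {k : Type} [Field k] {n : ℕ} {V : Type} [AddCommGroup V] [Module k V] (v : Module.Basis (Fin n) k V)
    (w : Fin n → V) (hw : ∀ i, w i - v i ∈ Submodule.span k (v '' {j | i < j})) : LinearIndependent k w := by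
  classical
  rw [Fintype.linearIndependent_iff]
  intro g hg i
  induction i using WellFoundedLT.induction with
  | _ i ih =>
    have h1 : v.repr (∑ j, g j • w j) i = 0 := by
      rw [hg, map_zero]
      rfl
    rw [map_sum, Finsupp.finsetSum_apply, Finset.sum_eq_single i] at h1
    · rw [map_smul, Finsupp.smul_apply, smul_eq_mul] at h1
      have h2 : v.repr (w i) i = 1 := by
        have h3 := v2_coord v (hw i) (le_refl i)
        rw [map_sub, Finsupp.sub_apply, Module.Basis.repr_self, Finsupp.single_eq_same] at h3
        exact sub_eq_zero.1 h3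
      rw [h2, mul_one] at h1
      exact h1
    · intro j _ hj
      rw [map_smul, Finsupp.smul_apply, smul_eq_mul]
      rcases lt_or_gt_of_ne hj with h | h
      · rw [ih j h, zero_mul]
      · have h3 := v2_coord v (hw j) h.le
        rw [map_sub, Finsupp.sub_apply, Module.Basis.repr_self, Finsupp.single_eq_of_ne hj.symm, sub_zero] at h3
        rw [h3, mul_zero]
    · intro h
      exact absurd (Finset.mem_univ i) h

end SSG.V
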