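import Mathlib
import Pool.Agent.Lib.H55P.L2
import Pool.Agent.Lib.SSG.V.V1
import Pool.Agent.Lib.SSG.V.V2

/-! # SSG, part V: labels adapted to the radical, modulo one prime of F

Chunk V3 (M/L). β is an O_F-basis of the ideal b (hrep, hdual: β' is the dual basis), r an ideal of O_K, nilpotent modulo the prime π of F. PROOF. k = O_F / (π) (a field: Ideal.Quotient.field, (π) is maximal:
PrincipalIdealRing / Ideal.IsPrime.isMaximal). For t in O_K let t β_j = sum_i a(t) i j β_i (hrep; unique by hdual: a(t) i j = Tr(t β_j β'_i)), a is additive, a(t t') = a(t) a(t'), a(1) = 1, and a(t) = 0 mod π for t in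
the ideal (π) (t = π t'). V = (Fin (m+1) → k), T_t : V → V, (T_t y) j = sum_i y i * mk (a(t) i j): k-linear, T_(t t') = T_t ∘ T_t' (commutative), T_1 = id. S = {T_t | t in r}: a product of e of them is T_t with t in r^e ≤ (π), so
it is 0. V1 gives the basis v of V; Y s k := Quotient.out (v s k) (V2 for the conclusion): for t s = 1 + t', t' in r, T_(t s) (v s) - v s = T_t' (v s) is in the span of the later ones, so (V2) the vectors T_(t s) (v s) are
linearly independent, and they are the rows of W modulo π: Tr(β_j t_s sum_k Y s k β'_k) = sum_k (sum ..) = sum_i Y s i a(t_s) i j (L2F_pair with x = the coordinates of t_s β_j). So det W is not 0 in k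
(Matrix.linearIndependent_rows_iff_isUnit, RingHom.map_det). -/

open NumberField IsDedekindDomain

namespace SSG.V

open H55N H55P

variable {F : Type} [Field F] [NumberField F] [IQ F] {K : Type} [Field K] [NumberField K]
  [Algebra F K] {m : ℕ}

theorem v3_inj (β : Fin (m + 1) → 𝓞 K) (β' : Fin (m + 1) → K)
    (hdual : ∀ j k, Algebra.trace F K ((β j : K) * β' k) = if j = k then 1 else 0)
    {x y : Fin (m + 1) → 𝓞 F}
    (h : ∑ j, algebraMap (𝓞 F) (𝓞 K) (x j) * β j = ∑ j, algebraMap (𝓞 F) (𝓞 K) (y j) * β j) : x = y := by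
  funext k
  have h1 := L2F_pair β β' hdual x (Pi.single k 1)
  have h2 := L2F_pair β β' hdual y (Pi.single k 1)
  rw [h, h2] at h1
  have h3 := (FaithfulSMul.algebraMap_injective (𝓞 F) F) h1
  simp only [Pi.single_apply, mul_ite, mul_one, mul_zero, Finset.sum_ite_eq', Finset.mem_univ, if_true] at h3
  exact h3.symm

theorem v3_mat (b : Ideal (𝓞 K)) (β : Fin (m + 1) → 𝓞 K) (β' : Fin (m + 1) → K) (hβ : ∀ j, β j ∈ b)
    (hdual : ∀ j k, Algebra.trace F K ((β j : K) * β' k) = if j = k then 1 else 0)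
    (hrep : ∀ x ∈ b, ∃ y : Fin (m + 1) → (𝓞 F), x = ∑ j, algebraMap (𝓞 F) (𝓞 K) (y j) * β j) :
    ∃ a : 𝓞 K → Matrix (Fin (m + 1)) (Fin (m + 1)) (𝓞 F), (∀ t j, t * β j = ∑ i, algebraMap (𝓞 F) (𝓞 K) (a t i j) * β i) ∧
      a 1 = 1 ∧ (∀ t t', a (t * t') = a t * a t') ∧ (∀ t t', a (t + t') = a t + a t') ∧
      ∀ (c : 𝓞 F) (t : 𝓞 K), a (algebraMap (𝓞 F) (𝓞 K) c * t) = c • a t := by
  choose y hy using fun (t : 𝓞 K) (j : Fin (m + 1)) => hrep (t * β j) (b.mul_mem_left t (hβ j))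
  have key : ∀ (t : 𝓞 K) (j : Fin (m + 1)) (z : Fin (m + 1) → 𝓞 F), t * β j = ∑ i, algebraMap (𝓞 F) (𝓞 K) (z i) * β i → y t j = z :=
    fun t j z h => v3_inj β β' hdual ((hy t j).symm.trans h)
  refine ⟨fun t => Matrix.of fun i j => y t j i, fun t j => hy t j, ?_, ?_, ?_, ?_⟩
  · refine Matrix.ext fun i j => ?_
    have h := key 1 j (Pi.single j 1) (by
      rw [one_mul, Finset.sum_eq_single j]
      · rw [Pi.single_eq_same, map_one, one_mul]
      · intro i _ hij
        rw [Pi.single_eq_of_ne hij, map_zero, zero_mul]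
      · intro h
        exact absurd (Finset.mem_univ j) h)
    show y 1 j i = _
    rw [h, Matrix.one_apply, Pi.single_apply]
  · intro t t'
    refine Matrix.ext fun l j => ?_
    have h := key (t * t') j (fun l => ∑ i, y t i l * y t' j i) (by
      rw [mul_assoc, hy t' j, Finset.mul_sum]
      have h1 : ∀ i, t * (algebraMap (𝓞 F) (𝓞 K) (y t' j i) * β i) =
          ∑ l, algebraMap (𝓞 F) (𝓞 K) (y t i l * y t' j i) * β l := by
        intro i
        rw [mul_left_comm, hy t i, Finset.mul_sum]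
        refine Finset.sum_congr rfl fun l _ => ?_
        rw [map_mul]
        ring
      rw [Finset.sum_congr rfl fun i _ => h1 i, Finset.sum_comm]
      refine Finset.sum_congr rfl fun l _ => ?_
      rw [map_sum, Finset.sum_mul])
    show y (t * t') j l = _
    rw [h, Matrix.mul_apply]
    rfl
  · intro t t'
    refine Matrix.ext fun l j => ?_
    have h := key (t + t') j (y t j + y t' j) (by
      rw [add_mul, hy t j, hy t' j, ← Finset.sum_add_distrib]
      refine Finset.sum_congr rfl fun l _ => ?_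
      rw [Pi.add_apply, map_add, add_mul])
    show y (t + t') j l = _
    rw [h]
    rfl
  · intro c t
    refine Matrix.ext fun l j => ?_
    have h := key (algebraMap (𝓞 F) (𝓞 K) c * t) j (c • y t j) (by
      rw [mul_assoc, hy t j, Finset.mul_sum]
      refine Finset.sum_congr rfl fun l _ => ?_
      rw [Pi.smul_apply, smul_eq_mul, map_mul, mul_assoc])
    show y (algebraMap (𝓞 F) (𝓞 K) c * t) j l = _
    rw [h]
    rfl

theorem adapted_coord (b : Ideal (𝓞 K)) (β : Fin (m + 1) → 𝓞 K) (β' : Fin (m + 1) → K) (hβ : ∀ j, β j ∈ b)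
    (hdual : ∀ j k, Algebra.trace F K ((β j : K) * β' k) = if j = k then 1 else 0)
    (hrep : ∀ x ∈ b, ∃ y : Fin (m + 1) → (𝓞 F), x = ∑ j, algebraMap (𝓞 F) (𝓞 K) (y j) * β j)
    (π : 𝓞 F) (hπ : Prime π) (r : Ideal (𝓞 K)) (e : ℕ) (hr : r ^ e ≤ Ideal.span {algebraMap (𝓞 F) (𝓞 K) π}) :
    ∃ Y : Fin (m + 1) → Fin (m + 1) → 𝓞 F, ∀ Y' : Fin (m + 1) → Fin (m + 1) → 𝓞 F, (∀ s j, π ∣ Y' s j - Y s j) →
      ∀ t : Fin (m + 1) → 𝓞 K, (∀ s, t s - 1 ∈ r) → ∀ W : Matrix (Fin (m + 1)) (Fin (m + 1)) (𝓞 F),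
        (∀ s j, Algebra.trace F K ((β j : K) * ((t s : K) * ∑ k, (algebraMap (𝓞 F) F (Y' s k)) • β' k)) = (W s j : F)) →
        ¬ π ∣ W.det := by
  classical
  obtain ⟨a, ha, ha1, hamul, haadd, hasm⟩ := v3_mat b β β' hβ hdual hrep
  have hprime : (Ideal.span {π}).IsPrime := (Ideal.span_singleton_prime hπ.ne_zero).2 hπ
  have hmax : (Ideal.span {π}).IsMaximal := hprime.isMaximal (by rw [Ne, Ideal.span_singleton_eq_bot]; exact hπ.ne_zero)
  let _ : Field (𝓞 F ⧸ Ideal.span {π}) := Ideal.Quotient.field _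
  let φ : 𝓞 F →+* 𝓞 F ⧸ Ideal.span {π} := Ideal.Quotient.mk (Ideal.span {π})
  have hφ : ∀ x, φ x = 0 ↔ π ∣ x := by
    intro x
    rw [← Ideal.mem_span_singleton]
    exact Ideal.Quotient.eq_zero_iff_mem
  let T : 𝓞 K → ((Fin (m + 1) → 𝓞 F ⧸ Ideal.span {π}) →ₗ[𝓞 F ⧸ Ideal.span {π}] (Fin (m + 1) → 𝓞 F ⧸ Ideal.span {π})) :=
    fun t => (φ.mapMatrix (a t)).vecMulLinear
  have hT : ∀ t y, T t y = Matrix.vecMul y (φ.mapMatrix (a t)) := fun _ _ => rfl
  have hT1 : T 1 = 1 := by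
    apply LinearMap.ext
    intro y
    rw [hT, ha1, map_one, Matrix.vecMul_one]
    rfl
  have hTmul : ∀ t t', T t * T t' = T (t' * t) := by
    intro t t'
    apply LinearMap.ext
    intro y
    rw [Module.End.mul_apply, hT, hT, hT, hamul, map_mul, Matrix.vecMul_vecMul]
  have hlist : ∀ l : List ((Fin (m + 1) → 𝓞 F ⧸ Ideal.span {π}) →ₗ[𝓞 F ⧸ Ideal.span {π}] (Fin (m + 1) → 𝓞 F ⧸ Ideal.span {π})),
      (∀ N ∈ l, N ∈ {N | ∃ t ∈ r, T t = N}) → ∃ t ∈ r ^ l.length, l.prod = T t := by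
    intro l
    induction l with
    | nil =>
      intro _
      refine ⟨1, ?_, ?_⟩
      · rw [List.length_nil, pow_zero, Ideal.one_eq_top]
        exact Submodule.mem_top
      · rw [List.prod_nil, hT1]
    | cons N l ih =>
      intro h
      obtain ⟨t, ht, hN⟩ := h N List.mem_cons_self
      obtain ⟨t', ht', hl⟩ := ih fun N' hN' => h N' (List.mem_cons_of_mem _ hN')
      refine ⟨t' * t, ?_, ?_⟩
      · rw [List.length_cons, pow_succ]
        exact Ideal.mul_mem_mul ht' ht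
      · rw [List.prod_cons, hl, ← hN, hTmul]
  have hnil : ∀ l : List ((Fin (m + 1) → 𝓞 F ⧸ Ideal.span {π}) →ₗ[𝓞 F ⧸ Ideal.span {π}] (Fin (m + 1) → 𝓞 F ⧸ Ideal.span {π})),
      (∀ N ∈ l, N ∈ {N | ∃ t ∈ r, T t = N}) → l.length = e → l.prod = 0 := by
    intro l hl he
    obtain ⟨t, ht, hlt⟩ := hlist l hl
    rw [he] at ht
    obtain ⟨t', ht'⟩ := Ideal.mem_span_singleton.1 (hr ht)
    rw [hlt, ht']
    apply LinearMap.ext
    intro y
    rw [hT, hasm]
    have h0 : φ.mapMatrix (π • a t') = 0 := by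
      ext i j
      rw [RingHom.mapMatrix_apply, Matrix.map_apply, Matrix.smul_apply, smul_eq_mul, map_mul, (hφ π).2 dvd_rfl, zero_mul]
      rfl
    rw [h0, Matrix.vecMul_zero]
    rfl
  obtain ⟨v, hv⟩ := adapted (m + 1) (Fin (m + 1) → 𝓞 F ⧸ Ideal.span {π}) (by rw [Module.finrank_fin_fun]) _ e hnil
  choose Y hY using fun (s j : Fin (m + 1)) => Ideal.Quotient.mk_surjective (v s j)
  refine ⟨Y, fun Y' hY' t ht W hW hdvd => ?_⟩
  have hW1 : ∀ s j, W s j = ∑ i, a (t s) i j * Y' s i := by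
    intro s j
    apply FaithfulSMul.algebraMap_injective (𝓞 F) F
    have h1 := L2F_pair β β' hdual (fun i => a (t s) i j) (Y' s)
    rw [← ha (t s) j, L2F_coe_mul] at h1
    rw [← h1]
    refine (hW s j).symm.trans ?_
    congr 1
    ring
  have hw : ∀ s, (φ.mapMatrix W) s = T (t s) (v s) := by
    intro s
    funext j
    rw [RingHom.mapMatrix_apply, Matrix.map_apply, hW1, map_sum, hT]
    show _ = ∑ i, v s i * φ (a (t s) i j)
    refine Finset.sum_congr rfl fun i _ => ?_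
    rw [map_mul, mul_comm]
    congr 1
    rw [← hY s i]
    have h1 : φ (Y' s i - Y s i) = 0 := (hφ _).2 (hY' s i)
    rw [map_sub, sub_eq_zero] at h1
    exact h1
  have hind : LinearIndependent (𝓞 F ⧸ Ideal.span {π}) (fun s => T (t s) (v s)) := by
    refine unitri v _ fun s => ?_
    have h1 : T (t s) (v s) - v s = T (t s - 1) (v s) := by
      have h2 : T (t s) (v s) = T (t s - 1) (v s) + T 1 (v s) := by
        rw [hT, hT, hT, ← Matrix.vecMul_add, ← map_add, ← haadd, sub_add_cancel]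
      rw [h2, hT1, Module.End.one_apply, add_sub_cancel_right]
    rw [h1]
    exact hv _ ⟨t s - 1, ht s, rfl⟩ s
  have hrow : LinearIndependent (𝓞 F ⧸ Ideal.span {π}) (φ.mapMatrix W).row := by
    have h1 : (φ.mapMatrix W).row = fun s => T (t s) (v s) := funext hw
    rw [h1]
    exact hind
  have hunit := (Matrix.isUnit_iff_isUnit_det _).1 (Matrix.linearIndependent_rows_iff_isUnit.1 hrow)
  rw [← RingHom.map_det, (hφ _).2 hdvd] at hunit
  exact not_isUnit_zero hunit

end SSG.V
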