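import Mathlib
import Pool.Agent.Lib.SSG.V.V3

/-! # SSG, part V: labels adapted to the radical, modulo all primes above p

Chunk V4 (S/M). PROOF. The prime ideals P of O_F containing p are finitely many (factors of (p): Ideal.finite_factors or UniqueFactorizationMonoid / (Ideal.span {p}) ≠ ⊥ has finitely many prime divisors; they are maximal,
pairwise coprime, each generated by a prime element π_P: PrincipalIdealRing). V3 for each π_P (r^e ≤ (p) ≤ (π_P)) gives Y_P; by the Chinese remainder theorem (Ideal.exists_forall_sub_mem_ideal or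
IsDedekindDomain.exists_forall_sub_mem_ideal) there is Y with Y s j = Y_P s j mod P for all P; then for all Y' = Y mod p: π_P divides Y' - Y_P. IsCoprime W.det p: isCoprime_of_prime_dvd (a prime z dividing both generates one of
the P, so it is associated to π_P). -/

open NumberField IsDedekindDomain

namespace SSG.V

open H55N H55P

variable {F : Type} [Field F] [NumberField F] [IQ F] {K : Type} [Field K] [NumberField K]
  [Algebra F K] {m : ℕ}

theorem adapted_all (p : ℕ) (hp : p.Prime) (b : Ideal (𝓞 K)) (β : Fin (m + 1) → 𝓞 K) (β' : Fin (m + 1) → K) (hβ : ∀ j, β j ∈ b)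
    (hdual : ∀ j k, Algebra.trace F K ((β j : K) * β' k) = if j = k then 1 else 0)
    (hrep : ∀ x ∈ b, ∃ y : Fin (m + 1) → (𝓞 F), x = ∑ j, algebraMap (𝓞 F) (𝓞 K) (y j) * β j)
    (r : Ideal (𝓞 K)) (e : ℕ) (hr : r ^ e ≤ Ideal.span {(p : 𝓞 K)}) :
    ∃ Y : Fin (m + 1) → Fin (m + 1) → 𝓞 F, ∀ Y' : Fin (m + 1) → Fin (m + 1) → 𝓞 F, (∀ s j, (p : 𝓞 F) ∣ Y' s j - Y s j) →
      ∀ t : Fin (m + 1) → 𝓞 K, (∀ s, t s - 1 ∈ r) → ∀ W : Matrix (Fin (m + 1)) (Fin (m + 1)) (𝓞 F),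
        (∀ s j, Algebra.trace F K ((β j : K) * ((t s : K) * ∑ k, (algebraMap (𝓞 F) F (Y' s k)) • β' k)) = (W s j : F)) →
        IsCoprime W.det (p : 𝓞 F) := by
  classical
  have hp0 : (p : 𝓞 F) ≠ 0 := Nat.cast_ne_zero.2 hp.ne_zero
  have hI0 : Ideal.span {(p : 𝓞 F)} ≠ ⊥ := by
    rw [Ne, Ideal.span_singleton_eq_bot]
    exact hp0
  have hfac : ∀ P : Ideal (𝓞 F), P ∈ (UniqueFactorizationMonoid.normalizedFactors
      (Ideal.span {(p : 𝓞 F)})).toFinset ↔ P.IsPrime ∧ Ideal.span {(p : 𝓞 F)} ≤ P := by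
    intro P
    rw [Multiset.mem_toFinset, Ideal.mem_normalizedFactors_iff hI0]
  have hY : ∀ P : {P : Ideal (𝓞 F) // P ∈ (UniqueFactorizationMonoid.normalizedFactors
      (Ideal.span {(p : 𝓞 F)})).toFinset}, ∃ (π : 𝓞 F) (Y : Fin (m + 1) → Fin (m + 1) → 𝓞 F),
      P.1 = Ideal.span {π} ∧ π ∣ (p : 𝓞 F) ∧
      ∀ Y' : Fin (m + 1) → Fin (m + 1) → 𝓞 F, (∀ s j, π ∣ Y' s j - Y s j) →
      ∀ t : Fin (m + 1) → 𝓞 K, (∀ s, t s - 1 ∈ r) → ∀ W : Matrix (Fin (m + 1)) (Fin (m + 1)) (𝓞 F),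
        (∀ s j, Algebra.trace F K ((β j : K) * ((t s : K) * ∑ k, (algebraMap (𝓞 F) F (Y' s k)) • β' k)) = (W s j : F)) →
        ¬ π ∣ W.det := by
    rintro ⟨P, hP⟩
    obtain ⟨hP1, hP2⟩ := (hfac P).1 hP
    obtain ⟨π, hπ⟩ := (IsPrincipalIdealRing.principal P).principal
    have hπ' : P = Ideal.span {π} := hπ
    have h1 : π ∣ (p : 𝓞 F) := by
      rw [← Ideal.mem_span_singleton, ← hπ']
      exact hP2 (Ideal.mem_span_singleton_self _)
    have h2 : π ≠ 0 := by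
      rintro rfl
      exact hp0 (zero_dvd_iff.1 h1)
    have h3 : Prime π := by
      rw [← Ideal.span_singleton_prime h2, ← hπ']
      exact hP1
    have h4 : r ^ e ≤ Ideal.span {algebraMap (𝓞 F) (𝓞 K) π} := by
      refine hr.trans ?_
      rw [Ideal.span_singleton_le_span_singleton]
      have h5 := map_dvd (algebraMap (𝓞 F) (𝓞 K)) h1
      rw [map_natCast] at h5
      exact h5
    obtain ⟨Y, hY⟩ := adapted_coord b β β' hβ hdual hrep π h3 r e h4
    exact ⟨π, Y, hπ', h1, hY⟩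
  choose π Y hπ1 hπ2 hY using hY
  have hcrt : ∀ s j : Fin (m + 1), ∃ y : 𝓞 F, ∀ (P : Ideal (𝓞 F)) (hP : P ∈ (UniqueFactorizationMonoid.normalizedFactors
      (Ideal.span {(p : 𝓞 F)})).toFinset), y - Y ⟨P, hP⟩ s j ∈ P := by
    intro s j
    obtain ⟨y, hy⟩ := IsDedekindDomain.exists_forall_sub_mem_ideal (fun P : Ideal (𝓞 F) => P) (fun _ => 1)
      (s := (UniqueFactorizationMonoid.normalizedFactors (Ideal.span {(p : 𝓞 F)})).toFinset)
      (fun P hP => by
        obtain ⟨hP1, hP2⟩ := (hfac P).1 hP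
        apply Ideal.prime_of_isPrime _ hP1
        rintro rfl
        exact hI0 (le_bot_iff.1 hP2))
      (fun P _ Q _ h => h) (fun P => Y P s j)
    refine ⟨y, fun P hP => ?_⟩
    have h1 := hy P hP
    rw [pow_one] at h1
    exact h1
  choose y hy using hcrt
  refine ⟨y, fun Y' hY' t ht W hW => ?_⟩
  apply isCoprime_of_prime_dvd (fun h => hp0 h.2)
  intro z hz hz1 hz2
  have h1 : Ideal.span {z} ∈ (UniqueFactorizationMonoid.normalizedFactors
      (Ideal.span {(p : 𝓞 F)})).toFinset := by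
    rw [hfac]
    refine ⟨(Ideal.span_singleton_prime hz.ne_zero).2 hz, ?_⟩
    rw [Ideal.span_singleton_le_span_singleton]
    exact hz2
  have h2 := hπ1 ⟨_, h1⟩
  have h3 : π ⟨_, h1⟩ ∣ z := by
    rw [← Ideal.mem_span_singleton, ← h2]
    exact Ideal.mem_span_singleton_self _
  refine hY ⟨_, h1⟩ Y' ?_ t ht W hW (h3.trans hz1)
  intro s j
  have h4 : π ⟨_, h1⟩ ∣ y s j - Y ⟨_, h1⟩ s j := by
    rw [← Ideal.mem_span_singleton, ← h2]
    exact hy s j _ h1
  have h5 : Y' s j - Y ⟨_, h1⟩ s j = (Y' s j - y s j) + (y s j - Y ⟨_, h1⟩ s j) := by ring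
  rw [h5]
  exact dvd_add ((hπ2 ⟨_, h1⟩).trans (hY' s j)) h4

end SSG.V
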