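import Mathlib
import Pool.Agent.Lib.H55P.L2
import Pool.Agent.Lib.H55P.D1
import Pool.Agent.Lib.H55P.D3
import Pool.Agent.Lib.SSG.V.V4

/-! # SSG, part V: labels and units for an ideal r which is nilpotent modulo p -/

open NumberField IsDedekindDomain

namespace SSG.V

open H55N H55P
open H55B (g)

variable {F : Type} [Field F] [NumberField F] [IQ F] {K : Type} [Field K] [NumberField K]
  [Algebra F K] {m : ℕ}

/-- Labels for units which are 1 modulo r l, r nilpotent modulo p. -/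
theorem labels_exist2 (hm : Module.finrank F K = m + 1) (p : ℕ) (hp : p.Prime) (l : 𝓞 F)
    (hl : Prime l) (hlp : IsCoprime l (p : 𝓞 F)) (b : Ideal (𝓞 K)) (hb : b ≠ ⊥)
    (c₀ : 𝓞 K) (hc : c₀ ∈ b) (hc' : c₀ ∉ Ideal.span {algebraMap (𝓞 F) (𝓞 K) l} * b)
    (u : Fin m → (𝓞 K)ˣ) (r : Ideal (𝓞 K)) (e : ℕ) (hr : r ^ e ≤ Ideal.span {(p : 𝓞 K)})
    (hur : ∀ z, (uu u z : 𝓞 K) - 1 ∈ r)
    (hul : ∀ z, (uu u z : 𝓞 K) - 1 ∈ Ideal.span {algebraMap (𝓞 F) (𝓞 K) l}) :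
    ∃ L : (Fin m → ℤ) → K, LabP p l b c₀ u L := by
  classical
  obtain ⟨β, β', hβ, hdual, hrep, hind⟩ := dual_basis hm b hb
  obtain ⟨c, hcc⟩ := hrep c₀ hc
  -- a coordinate not divisible by l
  obtain ⟨j₀, hj₀⟩ : ∃ j₀, ¬ l ∣ c j₀ := by
    by_contra hcon
    push Not at hcon
    choose c' hc'' using hcon
    apply hc'
    rw [Ideal.mem_span_singleton_mul]
    refine ⟨∑ j, algebraMap (𝓞 F) (𝓞 K) (c' j) * β j, b.sum_mem fun j _ => b.mul_mem_left _ (hβ j), ?_⟩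
    rw [hcc, Finset.mul_sum]
    refine Finset.sum_congr rfl fun j _ => ?_
    rw [hc'' j, map_mul]
    ring
  have hcop : IsCoprime l ((p : 𝓞 F) * c j₀) :=
    IsCoprime.mul_right hlp ((Prime.coprime_iff_not_dvd hl).2 hj₀)
  obtain ⟨a', b', hab⟩ := hcop
  obtain ⟨Y0, hY0⟩ := adapted_all p hp b β β' hβ hdual hrep r e hr
  -- the coordinate vectors
  let Yv : Fin (m + 1) → Fin (m + 1) → 𝓞 F := fun s j =>
    Y0 s j + (p : 𝓞 F) * (b' * (1 - ∑ i, c i * Y0 s i) * if j₀ = j then 1 else 0)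
  have hYone : ∀ s, ∑ j, c j * Yv s j = 1 + l * (-(a' * (1 - ∑ i, c i * Y0 s i))) := by
    intro s
    have h1 : ∑ j, c j * Yv s j = (∑ i, c i * Y0 s i) + (p : 𝓞 F) * (b' * (1 - ∑ i, c i * Y0 s i)) * c j₀ := by
      simp only [Yv, mul_add, Finset.sum_add_distrib]
      congr 1
      rw [Finset.sum_eq_single j₀]
      · rw [if_pos rfl]; ring
      · intro j _ hj
        rw [if_neg hj.symm]; ring
      · intro h
        exact absurd (Finset.mem_univ _) h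
    rw [h1]
    linear_combination (1 - ∑ i, c i * Y0 s i) * hab
  have hYp : ∀ s j, (p : 𝓞 F) ∣ Yv s j - Y0 s j := fun s j =>
    ⟨b' * (1 - ∑ i, c i * Y0 s i) * if j₀ = j then 1 else 0, by simp only [Yv]; ring⟩
  have hW := hY0 Yv hYp
  let L0 : Fin (m + 1) → K := fun s => ∑ k, (algebraMap (𝓞 F) F (Yv s k)) • β' k
  have hL0 : ∀ (x : Fin (m + 1) → 𝓞 F) (s : Fin (m + 1)),
      Algebra.trace F K (((∑ j, algebraMap (𝓞 F) (𝓞 K) (x j) * β j : 𝓞 K) : K) * L0 s) =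
        algebraMap (𝓞 F) F (∑ j, x j * Yv s j) := fun x s => L2F_pair β β' hdual x (Yv s)
  have hL0b : ∀ x ∈ b, ∀ s, ∃ y : 𝓞 F, Algebra.trace F K ((x : K) * L0 s) = algebraMap (𝓞 F) F y := by
    intro x hx s
    obtain ⟨y, hy⟩ := hrep x hx
    exact ⟨_, by rw [hy]; exact hL0 y s⟩
  let L : (Fin m → ℤ) → K := fun a =>
    ((uu u (fun i => a i / ((m + 1 : ℕ) : ℤ)) : 𝓞 K) : K) * L0 (L2_col a)
  -- the action of the units modulo l
  have hmod : ∀ (x : 𝓞 K) (_ : x ∈ b) (z : Fin m → ℤ) (s : Fin (m + 1)), ∃ w : 𝓞 F,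
      Algebra.trace F K ((x : K) * (((uu u z : 𝓞 K) : K) * L0 s)) =
        Algebra.trace F K ((x : K) * L0 s) + algebraMap (𝓞 F) F (l * w) := by
    intro x hx z s
    obtain ⟨t, ht⟩ := Ideal.mem_span_singleton.1 (hul z)
    obtain ⟨w, hw⟩ := hL0b (t * x) (b.mul_mem_left _ hx) s
    refine ⟨w, ?_⟩
    have h1 : (uu u z : 𝓞 K) = 1 + algebraMap (𝓞 F) (𝓞 K) l * t := by
      linear_combination ht
    have h2 : (x : K) * (((uu u z : 𝓞 K) : K) * L0 s) =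
        (x : K) * L0 s + ((algebraMap (𝓞 F) (𝓞 K) l : 𝓞 K) : K) *
          (((t * x : 𝓞 K) : K) * L0 s) := by
      rw [h1]
      have h3 : ((1 + algebraMap (𝓞 F) (𝓞 K) l * t : 𝓞 K) : K) =
          1 + ((algebraMap (𝓞 F) (𝓞 K) l : 𝓞 K) : K) * (t : K) := by
        rw [L2F_coe_add, L2F_coe_mul]
        rfl
      rw [h3, L2F_coe_mul]
      ring
    rw [h2, map_add, L2F_trace_mul, hw, ← map_mul (algebraMap (𝓞 F) F)]
  refine ⟨L, ⟨?_, ?_, ?_, ?_⟩⟩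
  · intro a z
    have hn : ((m + 1 : ℕ) : ℤ) ≠ 0 := by positivity
    have h1 : L2_col (a + ((m + 1 : ℕ) : ℤ) • z) = L2_col a := by
      apply L2_col_eq
      have : ∑ i, (a + ((m + 1 : ℕ) : ℤ) • z) i = ∑ i, a i + ((m + 1 : ℕ) : ℤ) * ∑ i, z i := by
        simp only [Pi.add_apply, Pi.smul_apply, smul_eq_mul, Finset.sum_add_distrib, Finset.mul_sum]
      rw [this, Int.add_mul_emod_self_left]
    have h2 : (fun i => (a + ((m + 1 : ℕ) : ℤ) • z) i / ((m + 1 : ℕ) : ℤ)) =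
        (fun i => a i / ((m + 1 : ℕ) : ℤ)) + z := by
      funext i
      simp only [Pi.add_apply, Pi.smul_apply, smul_eq_mul]
      rw [Int.add_mul_ediv_left _ _ hn]
    show ((uu u (fun i => (a + ((m + 1 : ℕ) : ℤ) • z) i / ((m + 1 : ℕ) : ℤ)) : 𝓞 K) : K) *
      L0 (L2_col (a + ((m + 1 : ℕ) : ℤ) • z)) = _
    rw [h1, h2, L2F_uu_add, Units.val_mul, L2F_coe_mul]
    show _ = ((uu u z : 𝓞 K) : K) *
      (((uu u (fun i => a i / ((m + 1 : ℕ) : ℤ)) : 𝓞 K) : K) * L0 (L2_col a))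
    ring
  · intro a x hx
    have h1 : (x : K) * L a =
        ((x * (uu u (fun i => a i / ((m + 1 : ℕ) : ℤ)) : 𝓞 K) : 𝓞 K) : K) * L0 (L2_col a) := by
      rw [L2F_coe_mul, mul_assoc]
    rw [h1]
    exact hL0b _ (b.mul_mem_right _ hx) _
  · intro a
    obtain ⟨w, hw⟩ := hmod c₀ hc (fun i => a i / ((m + 1 : ℕ) : ℤ)) (L2_col a)
    have h1 := hL0 c (L2_col a)
    rw [← hcc, hYone] at h1
    refine ⟨-(a' * (1 - ∑ i, c i * Y0 (L2_col a) i)) + w, ?_⟩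
    show Algebra.trace F K ((c₀ : K) *
      (((uu u (fun i => a i / ((m + 1 : ℕ) : ℤ)) : 𝓞 K) : K) * L0 (L2_col a))) = _
    rw [hw, h1, ← map_add]
    congr 1
    ring
  · intro a π
    let s : Equiv.Perm (Fin (m + 1)) := Equiv.ofBijective _ (L2_bij a π)
    have hs : ∀ k, s k = L2_col (kv a π k) := fun k => rfl
    -- the matrix of the coordinates
    have hY : ∀ k j : Fin (m + 1), ∃ W : 𝓞 F, Algebra.trace F K ((β j : K) * L (kv a π k)) =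
        algebraMap (𝓞 F) F W := by
      intro k j
      have h1 : ((β j : 𝓞 K) : K) * L (kv a π k) =
          ((β j * (uu u (fun i => kv a π k i / ((m + 1 : ℕ) : ℤ)) : 𝓞 K) : 𝓞 K) : K) * L0 (L2_col (kv a π k)) := by
        rw [L2F_coe_mul, mul_assoc]
      rw [h1]
      exact hL0b _ (b.mul_mem_right _ (hβ j)) _
    choose Y hYY using hY
    let t : Fin (m + 1) → 𝓞 K := fun i => (uu u (fun i' => kv a π (s.symm i) i' / ((m + 1 : ℕ) : ℤ)) : 𝓞 K)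
    let W : Matrix (Fin (m + 1)) (Fin (m + 1)) (𝓞 F) := fun i j => Y (s.symm i) j
    have hWt : ∀ i j, Algebra.trace F K ((β j : K) * ((t i : K) * ∑ k, (algebraMap (𝓞 F) F (Yv i k)) • β' k)) =
        (W i j : F) := by
      intro i j
      have h1 := hYY (s.symm i) j
      have h2 : L2_col (kv a π (s.symm i)) = i := by
        rw [← hs, Equiv.apply_symm_apply]
      have h3 : L (kv a π (s.symm i)) = (t i : K) * ∑ k, (algebraMap (𝓞 F) F (Yv i k)) • β' k := by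
        show ((uu u (fun i' => kv a π (s.symm i) i' / ((m + 1 : ℕ) : ℤ)) : 𝓞 K) : K) * L0 (L2_col (kv a π (s.symm i))) = _
        rw [h2]
      rw [← h3, h1]
    have hcopW := hW t (fun i => hur _) W hWt
    let Ym : Matrix (Fin (m + 1)) (Fin (m + 1)) (𝓞 F) := fun k j => Y k j
    have hdet : IsCoprime Ym.det (p : 𝓞 F) := by
      have h1 : W = Ym.submatrix s.symm id := rfl
      rw [h1, Matrix.det_permute] at hcopW
      exact IsCoprime.of_mul_left_right hcopW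
    refine ⟨Ym.det, hdet, fun y => ?_⟩
    refine ⟨∑ j, algebraMap (𝓞 F) (𝓞 K) ((Ym.adjugate.mulVec y) j) * β j,
      b.sum_mem fun j _ => b.mul_mem_left _ (hβ j), fun k => ?_⟩
    rw [L2F_coe_sum, Finset.sum_mul, map_sum]
    have h1 : ∀ j, Algebra.trace F K
        (((algebraMap (𝓞 F) (𝓞 K) ((Ym.adjugate.mulVec y) j) * β j : 𝓞 K) : K) * L (kv a π k)) =
          algebraMap (𝓞 F) F (Ym k j * (Ym.adjugate.mulVec y) j) := by
      intro j
      rw [L2F_coe_mul, mul_assoc, L2F_trace_mul, hYY k j, mul_comm, ← map_mul]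
    rw [Finset.sum_congr rfl fun j _ => h1 j, ← map_sum]
    congr 1
    have h2 : Ym.mulVec (Ym.adjugate.mulVec y) = Ym.det • y := by
      rw [Matrix.mulVec_mulVec, Matrix.mul_adjugate, Matrix.smul_mulVec, Matrix.one_mulVec]
    exact congrFun h2 k

/-- The radical of (p). -/
noncomputable def radP (p : ℕ) (K : Type) [Field K] [NumberField K] : Ideal (𝓞 K) := (Ideal.span {(p : 𝓞 K)}).radical

theorem radP_pow (p : ℕ) (K : Type) [Field K] [NumberField K] : ∃ e, radP p K ^ e ≤ Ideal.span {(p : 𝓞 K)} := by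
  obtain ⟨e, he⟩ := Ideal.exists_radical_pow_le_of_fg (Ideal.span {(p : 𝓞 K)}) (IsNoetherian.noetherian _)
  exact ⟨e, he⟩

theorem radP_le (p : ℕ) (K : Type) [Field K] [NumberField K] : Ideal.span {(p : 𝓞 K)} ≤ radP p K := Ideal.le_radical

theorem radP_cop {p : ℕ} {K : Type} [Field K] [NumberField K] {J : Ideal (𝓞 K)} (h : IsCoprime J (Ideal.span {(p : 𝓞 K)})) :
    IsCoprime J (radP p K) := by
  rw [Ideal.isCoprime_iff_sup_eq] at h ⊢
  rw [eq_top_iff, ← h]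
  exact sup_le_sup_left (radP_le p K) _

/-- Change of the group of units by an index prime to p. -/
theorem prime_change2 (p : ℕ) (hp : p.Prime) (J J' : Ideal (𝓞 K)) (hJ : J ≠ ⊥)
    (hJ2 : IsCoprime J (Ideal.span {(p : 𝓞 K)})) (hJ' : J' = radP p K * J)
    (X : Set (𝓞 K)) (hX0 : (0 : 𝓞 K) ∉ X)
    (hX : ∀ u : (𝓞 K)ˣ, (u : 𝓞 K) - 1 ∈ J → ∀ x ∈ X, (u : 𝓞 K) * x ∈ X) :
    ∃ ν : ℕ, ¬ p ∣ ν ∧ ∀ T, Transv J X T → ∃ T', Transv J' X T' ∧
      ∀ (φ : 𝓞 K → ℂ) (S : ℂ), (∀ u : (𝓞 K)ˣ, (u : 𝓞 K) - 1 ∈ J → ∀ x ∈ X, φ ((u : 𝓞 K) * x) = φ x) →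
        HasSum (fun x : T' => φ x) S → HasSum (fun x : T => φ x) (S / ν) := by
  have hp0 : (p : 𝓞 K) ≠ 0 := by exact_mod_cast hp.ne_zero
  have hr0 : radP p K ≠ ⊥ := by
    intro h
    have h1 := radP_le p K
    rw [h, le_bot_iff, Ideal.span_singleton_eq_bot] at h1
    exact hp0 h1
  have hJ'0 : J' ≠ ⊥ := by
    rw [hJ', Ne, Ideal.mul_eq_bot]
    exact fun h => h.elim hr0 hJ
  have hle : J' ≤ J := hJ' ▸ Ideal.mul_le_right
  haveI := D3_fin J' hJ'0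
  haveI hfi : ((D3_U J').subgroupOf (D3_U J)).FiniteIndex := inferInstance
  refine ⟨((D3_U J').subgroupOf (D3_U J)).index, ?_, D3_main J J' hle X hfi hX0 hX⟩
  intro hev
  haveI : Finite ((D3_U J) ⧸ ((D3_U J').subgroupOf (D3_U J))) :=
    Subgroup.finite_quotient_of_finiteIndex
  haveI : Fact (Nat.Prime p) := ⟨hp⟩
  obtain ⟨q, hq⟩ := exists_prime_orderOf_dvd_card' (G := (D3_U J) ⧸ ((D3_U J').subgroupOf (D3_U J)))
    p hev
  obtain ⟨a, rfl⟩ := QuotientGroup.mk_surjective q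
  have h1 := pow_orderOf_eq_one (QuotientGroup.mk a : (D3_U J) ⧸ ((D3_U J').subgroupOf (D3_U J)))
  rw [hq, ← QuotientGroup.mk_pow, QuotientGroup.eq_one_iff, Subgroup.mem_subgroupOf, D3_mem] at h1
  have h2 : (((a : (𝓞 K)ˣ) : 𝓞 K) - 1) ^ p ∈ radP p K := by
    obtain ⟨r, hr⟩ := exists_add_pow_prime_eq hp (((a : (𝓞 K)ˣ) : 𝓞 K) - 1) 1
    have h3 : (((a : (𝓞 K)ˣ) : 𝓞 K) - 1) ^ p =
        ((((a ^ p : D3_U J) : (𝓞 K)ˣ) : 𝓞 K) - 1) -
          (p : 𝓞 K) * ((((a : (𝓞 K)ˣ) : 𝓞 K) - 1) * 1 * r) := by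
      rw [SubmonoidClass.coe_pow, Units.val_pow_eq_pow_val]
      rw [sub_add_cancel, one_pow] at hr
      linear_combination -hr
    rw [h3]
    refine Ideal.sub_mem _ ?_ (Ideal.mul_mem_right _ _ (radP_le p K (Ideal.mem_span_singleton_self _)))
    exact (hJ' ▸ Ideal.mul_le_left : J' ≤ radP p K) h1
  have h4 : ((a : (𝓞 K)ˣ) : 𝓞 K) - 1 ∈ radP p K :=
    (Ideal.radical_isRadical (Ideal.span {(p : 𝓞 K)})) ⟨p, h2⟩
  have h5 : ((a : (𝓞 K)ˣ) : 𝓞 K) - 1 ∈ J' := by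
    have h6 : ((a : (𝓞 K)ˣ) : 𝓞 K) - 1 ∈ radP p K ⊓ J := ⟨h4, (D3_mem J _).1 a.2⟩
    rw [hJ', Ideal.mul_eq_inf_of_coprime]
    · exact h6
    · exact (Ideal.isCoprime_iff_sup_eq.1 (radP_cop hJ2).symm)
  have h7 : (QuotientGroup.mk a : (D3_U J) ⧸ ((D3_U J').subgroupOf (D3_U J))) = 1 := by
    rw [QuotientGroup.eq_one_iff, Subgroup.mem_subgroupOf, D3_mem]
    exact h5
  rw [h7, orderOf_one] at hq
  exact hp.one_lt.ne hq

/-- No torsion. -/
theorem torsion_free2 (p : ℕ) (hp : p.Prime) (l : 𝓞 F) (hl : Prime l) (hlp : IsCoprime l (p : 𝓞 F))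
    (J : Ideal (𝓞 K)) (h1 : J ≤ radP p K)
    (h2 : J ≤ Ideal.span {algebraMap (𝓞 F) (𝓞 K) l}) (ζ : (𝓞 K)ˣ) (hζ : (ζ : 𝓞 K) - 1 ∈ J) (q : ℕ)
    (hq : q.Prime) (h : ζ ^ q = 1) : ζ = 1 := by
  by_contra hne
  have hs : ∑ i ∈ Finset.range q, (ζ : 𝓞 K) ^ i = 0 := by
    have h := mul_geom_sum (ζ : 𝓞 K) q
    have h2 : (ζ : 𝓞 K) ^ q = 1 := by
      have h0 := congrArg Units.val ‹ζ ^ q = 1›
      simpa using h0
    rw [h2, sub_self] at h
    rcases mul_eq_zero.1 h with h3 | h3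
    · exact absurd (Units.ext (sub_eq_zero.1 h3)) hne
    · exact h3
  have h3 : (q : 𝓞 K) ∈ J := by
    have h4 : (q : 𝓞 K) = - ∑ i ∈ Finset.range q, ((ζ : 𝓞 K) ^ i - 1) := by
      rw [Finset.sum_sub_distrib, hs]
      simp
    rw [h4]
    refine (Ideal.neg_mem_iff _).2 (Ideal.sum_mem _ fun i _ => ?_)
    have h5 := sub_dvd_pow_sub_pow (ζ : 𝓞 K) 1 i
    rw [one_pow] at h5
    exact Ideal.mem_of_dvd _ h5 hζ
  obtain ⟨e, he⟩ := radP_pow p K
  have h1' : (q : 𝓞 K) ^ e ∈ Ideal.span {(p : 𝓞 K)} := he (Ideal.pow_mem_pow (h1 h3) e)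
  obtain ⟨y, hy⟩ := Ideal.mem_span_singleton.1 h1'
  have hnorm : ∀ k : ℕ, Algebra.norm ℤ (k : 𝓞 K) = (k : ℤ) ^ Module.finrank ℤ (𝓞 K) := by
    intro k
    have := Algebra.norm_algebraMap (S := 𝓞 K) (k : ℤ)
    rw [map_natCast] at this
    exact this
  have hy3 := congrArg (Algebra.norm ℤ) hy
  rw [map_mul, map_pow, hnorm, hnorm, ← pow_mul] at hy3
  have hpos : Module.finrank ℤ (𝓞 K) ≠ 0 := (Module.finrank_pos (R := ℤ) (M := 𝓞 K)).ne'
  have h6 : (p : ℤ) ∣ (q : ℤ) := by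
    have h7 : (p : ℤ) ∣ (q : ℤ) ^ (Module.finrank ℤ (𝓞 K) * e) := by
      rw [hy3]
      exact Dvd.dvd.mul_right (dvd_pow_self _ hpos) _
    exact (Nat.prime_iff_prime_int.1 hp).dvd_of_dvd_pow h7
  have h7 : p = q := (Nat.prime_dvd_prime_iff_eq hp hq).1 (by exact_mod_cast h6)
  subst h7
  have h8 : (p : 𝓞 K) ∈ Ideal.span {algebraMap (𝓞 F) (𝓞 K) l} := h2 h3
  obtain ⟨a, b, hab⟩ := hlp
  have h9 : (1 : 𝓞 K) ∈ Ideal.span {algebraMap (𝓞 F) (𝓞 K) l} := by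
    have h10 := congrArg (algebraMap (𝓞 F) (𝓞 K)) hab
    rw [map_add, map_mul, map_mul, map_one, map_natCast] at h10
    rw [← h10]
    exact Ideal.add_mem _ (Ideal.mul_mem_left _ _ (Ideal.mem_span_singleton_self _))
      (Ideal.mul_mem_left _ _ h8)
  have h11 : IsUnit (algebraMap (𝓞 F) (𝓞 K) l) := by
    rw [← Ideal.span_singleton_eq_top]
    exact (Ideal.eq_top_iff_one _).2 h9
  have h12 : IsUnit (Algebra.intNorm (𝓞 F) (𝓞 K) (algebraMap (𝓞 F) (𝓞 K) l)) := h11.map _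
  have : IsScalarTower ℚ F K := IsScalarTower.of_algebraMap_eq' (Subsingleton.elim _ _)
  have : Module.Finite F K := Module.Finite.of_restrictScalars_finite ℚ F K
  have h13 : Algebra.intNorm (𝓞 F) (𝓞 K) (algebraMap (𝓞 F) (𝓞 K) l) = l ^ Module.finrank F K := by
    apply RingOfIntegers.coe_injective
    rw [Algebra.algebraMap_intNorm (A := 𝓞 F) (K := F) (L := K) (B := 𝓞 K), map_pow]
    exact Algebra.norm_algebraMap (S := K) (algebraMap (𝓞 F) F l)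
  rw [h13] at h12
  exact hl.not_isUnit ((isUnit_pow_iff Module.finrank_pos.ne').1 h12)

end SSG.V
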