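import Mathlib
import Pool.Agent.Lib.SSG.E.E3
import Pool.Agent.Lib.SSG.E.CLW
import Pool.Agent.Lib.SSG.V.V6

/-! # SSG, part V: the p-adic shape of the values for arbitrary K -/

open NumberField IsDedekindDomain

namespace SSG.V

open H55N H55P SSG.E
open H35P (WAB Ker tt)
open H55K (CMA Dta)

variable {F : Type} [Field F] [NumberField F] [IQ F]

theorem lin_form2 {K : Type} [Field K] [NumberField K] [Algebra F K] {m N : ℕ} {p : ℕ} (D : Ctx F K m) (hE : Emb F D.σ)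
    (hp : p.Prime) (ω₀ : Fin (m + 1) → 𝓞 K) (co : 𝓞 K → Fin (m + 1) → 𝓞 F)
    (hco : ∀ x, ∃ t : 𝓞 K, x = ∑ s, algebraMap (𝓞 F) (𝓞 K) (co x s) * ω₀ s + (p : 𝓞 K) ^ N * t) {α : K}
    (hα : TInt (F := F) p α) :
    ∃ c : Fin (m + 1) → 𝓞 F, ∀ (x : 𝓞 K) (y : 𝓞 F), D.Tr α x = eF F y →
      (p : 𝓞 F) ^ N ∣ y - ∑ k, c k * co x k := by
  obtain ⟨d, hd, hd'⟩ := hα
  choose y hy using hd'
  have hcop : IsCoprime (d : ℤ) ((p : ℤ) ^ N) :=
    (Nat.isCoprime_iff_coprime.2 (((Nat.Prime.coprime_iff_not_dvd hp).2 hd).symm)).pow_right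
  obtain ⟨a, b, hab⟩ := hcop
  refine ⟨fun s => (a : 𝓞 F) * y (ω₀ s), fun x z hz => ?_⟩
  obtain ⟨t, ht⟩ := hco x
  have h1 : (d : 𝓞 F) * z = ∑ s, y (ω₀ s) * co x s + (p : 𝓞 F) ^ N * y t := by
    apply RingOfIntegers.coe_injective
    have h2 : Algebra.trace F K ((x : K) * α) = (z : F) := by
      apply (embF F).injective
      rw [← Tr_eq D hE, hz]
      rfl
    have h3 : Algebra.trace F K ((x : K) * ((d : K) * α)) = (d : F) * (z : F) := by
      have h4 : (x : K) * ((d : K) * α) = (d : F) • ((x : K) * α) := by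
        rw [Algebra.smul_def, map_natCast]
        ring
      rw [h4, map_smul, h2, smul_eq_mul]
    have h5 : Algebra.trace F K ((x : K) * ((d : K) * α)) =
        ∑ s, (y (ω₀ s) : F) * (co x s : F) + (p : F) ^ N * (y t : F) := by
      conv_lhs => rw [ht]
      rw [L2F_coe_add, L2F_coe_sum, add_mul, Finset.sum_mul, map_add, map_sum]
      congr 1
      · refine Finset.sum_congr rfl fun s _ => ?_
        rw [L2F_coe_mul, mul_assoc, L2F_trace_mul, hy (ω₀ s)]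
        exact mul_comm _ _
      · have h7 : (((p : 𝓞 K) ^ N * t : 𝓞 K) : K) * ((d : K) * α) = ((p : F) ^ N) • ((t : K) * ((d : K) * α)) := by
          have h8 : (((p : 𝓞 K) ^ N * t : 𝓞 K) : K) = (p : K) ^ N * (t : K) := by
            rw [L2F_coe_mul]
            congr 1
          rw [h8, Algebra.smul_def, map_pow, map_natCast]
          ring
        rw [h7, map_smul, smul_eq_mul, hy t]
    rw [h3] at h5
    rw [map_mul, map_natCast, map_add, map_sum, map_mul, map_pow, map_natCast]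
    refine h5.trans ?_
    congr 1
  have h6 : ∑ k, (a : 𝓞 F) * y (ω₀ k) * co x k = (a : 𝓞 F) * ((d : 𝓞 F) * z - (p : 𝓞 F) ^ N * y t) := by
    rw [h1, add_sub_cancel_right, Finset.mul_sum]
    refine Finset.sum_congr rfl fun s _ => by ring
  rw [h6]
  have h7 : (a : 𝓞 F) * d + b * (p : 𝓞 F) ^ N = 1 := by exact_mod_cast congrArg (Int.cast (R := 𝓞 F)) hab
  exact ⟨b * z + a * y t, by linear_combination -z * h7⟩

theorem det2 {A B : F} {Om : ℂ} {Ω : Type} [Field Ω] [DecidableEq Ω]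
    [Algebra F Ω] {j : Ω →+* ℂ} {act : 𝓞 F →+* AddMonoid.End (Pt (WAB A B) Ω)} (hc : CMA F A B Om j act) {p : ℕ} [Fact p.Prime]
    (V : ValuationSubring Ω) (hV : V.valuation (p : Ω) < 1) {K : Type} [Field K] [NumberField K] [Algebra F K] {m : ℕ}
    (D : Ctx F K m) (hE : Emb F D.σ) (ω₀ : Fin (m + 1) → 𝓞 K) (α : Fin (m + 1) → K) (hα : ∀ k, TInt (F := F) p (α k)) :
    ∃ ω : Ω, j ω = (Matrix.of fun i s => D.σ i (ω₀ s : K)).det * (Matrix.of fun k i => D.σ i (α k)).det ∧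
      V.valuation ω ≤ 1 := by
  choose d hd y hy using hα
  have hchar : CharZero Ω := j.charZero
  have hd1 : ∀ k, V.valuation ((d k : ℕ) : Ω) = 1 := fun k => by
    have h1 := clw_val V hV (d k) (hd k)
    have h2 : ((d k : ℕ) : Ω) ∈ V := natCast_mem V (d k)
    rw [← V.valuation_le_one_iff] at h1 h2
    rw [map_inv₀] at h1
    refine le_antisymm h2 ?_
    by_contra h3
    push Not at h3
    have h4 : V.valuation ((d k : ℕ) : Ω) ≠ 0 := by
      rw [Valuation.ne_zero_iff]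
      intro h5
      rw [Nat.cast_eq_zero] at h5
      exact hd k (h5 ▸ dvd_zero p)
    have h6 := (one_lt_inv₀ (zero_lt_iff.2 h4)).2 h3
    exact absurd h1 (not_le.2 h6)
  let Y : Matrix (Fin (m + 1)) (Fin (m + 1)) (𝓞 F) := Matrix.of fun k s => y k (ω₀ s)
  refine ⟨algebraMap F Ω ((Y.det : 𝓞 F) : F) * (∏ k, ((d k : ℕ) : Ω))⁻¹, ?_, ?_⟩
  · have hd0 : (∏ k, ((d k : ℕ) : ℂ)) ≠ 0 := Finset.prod_ne_zero_iff.2 fun k _ => by
      intro h
      rw [Nat.cast_eq_zero] at h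
      exact hd k (h ▸ dvd_zero p)
    rw [map_mul, hc.ovr, map_inv₀, map_prod]
    simp only [map_natCast]
    rw [mul_inv_eq_iff_eq_mul₀ hd0]
    have h1 : (Matrix.of fun k i => D.σ i (α k)) * (Matrix.of fun i s => D.σ i (ω₀ s : K)) =
        Matrix.of fun k s => D.Tr (α k) (ω₀ s) := by
      ext k s
      rw [Matrix.mul_apply]
      show _ = D.Tr (α k) (ω₀ s)
      unfold H55P.Ctx.Tr
      refine Finset.sum_congr rfl fun i _ => ?_
      show D.σ i (α k) * D.σ i (ω₀ s : K) = _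
      rw [← map_mul, mul_comm]
    have h2 : (embF F) ((Y.det : 𝓞 F) : F) = (Matrix.of fun k s => ((d k : ℕ) : ℂ) * D.Tr (α k) (ω₀ s)).det := by
      show eF F Y.det = _
      rw [RingHom.map_det]
      congr 1
      ext k s
      show eF F (y k (ω₀ s)) = ((d k : ℕ) : ℂ) * D.Tr (α k) (ω₀ s)
      have h3 := hy k (ω₀ s)
      rw [Tr_eq D hE]
      show (embF F) (algebraMap (𝓞 F) F (y k (ω₀ s))) = _
      rw [← h3]
      have h4 : ((ω₀ s : 𝓞 K) : K) * (((d k : ℕ) : K) * α k) = ((d k : ℕ) : F) • (((ω₀ s : 𝓞 K) : K) * α k) := by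
        rw [Algebra.smul_def, map_natCast]
        ring
      rw [h4, map_smul, smul_eq_mul, map_mul, map_natCast]
    have h5 : (Matrix.of fun k s => ((d k : ℕ) : ℂ) * D.Tr (α k) (ω₀ s)) =
        Matrix.diagonal (fun k => ((d k : ℕ) : ℂ)) * Matrix.of fun k s => D.Tr (α k) (ω₀ s) := by
      ext k s
      rw [Matrix.diagonal_mul]
      rfl
    rw [h2, h5, Matrix.det_mul, Matrix.det_diagonal, ← h1, Matrix.det_mul]
    ring
  · rw [map_mul, map_inv₀, map_prod]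
    simp only [hd1, Finset.prod_const_one, inv_one, mul_one]
    have h1 : IsIntegral ℤ (algebraMap F Ω ((Y.det : 𝓞 F) : F)) :=
      map_isIntegral_int (algebraMap F Ω) (Y.det).2
    have h3 : IsIntegral V (algebraMap F Ω ((Y.det : 𝓞 F) : F)) := h1.tower_top
    obtain ⟨t, ht⟩ := IsIntegrallyClosed.isIntegral_iff.1 h3
    rw [← ht]
    exact V.valuation_le_one t

/-- The p-adic shape of the values, arbitrary K, coordinates in a basis of O_K over O_F. -/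
theorem ldH_fn2 {A B : F} {Om : ℂ} {Ω : Type} [Field Ω] [DecidableEq Ω]
    [Algebra F Ω] [IsAlgClosure F Ω] {j : Ω →+* ℂ} {act : 𝓞 F →+* AddMonoid.End (Pt (WAB A B) Ω)}
    {mm : Ideal (𝓞 F)} {ψ : Ideal (𝓞 F) →*₀ 𝓞 F} {p : ℕ} [Fact p.Prime] (d : Dta A B Om j act mm ψ p)
    (V : ValuationSubring Ω) (hV : V.valuation (p : Ω) < 1)
    (i : Ω →+* ℂ_[p]) (T : ℕ → Pt (WAB A B) Ω) (L : LTF F ℂ_[p]) (hL : LocM A B Om j act p V i T L)
    {K : Type} [Field K] [NumberField K] [Algebra F K] {m N : ℕ}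
    (ω₀ : Fin (m + 1) → 𝓞 K) (co : 𝓞 K → Fin (m + 1) → 𝓞 F)
    (hco : ∀ x, ∃ t : 𝓞 K, x = ∑ s, algebraMap (𝓞 F) (𝓞 K) (co x s) * ω₀ s + (p : 𝓞 K) ^ N * t)
    {l : 𝓞 F} (hl : Prime l) (hlp : IsCoprime l (p : 𝓞 F)) (D : H55P.Ctx F K m) (hD : D.Ok) (S : LD D l (p ^ N)) (hS : S.Ok)
    (hA : ∀ k, TInt (F := F) p (S.A k)) (hN : 1 ≤ N) :
    ∃ (h : 𝓞 K → Ω) (H' : (Fin (m + 1) → 𝓞 F) → ℂ_[p]), (∀ a ∈ D.X, j (h a) = (Matrix.of fun i s => D.σ i (ω₀ s : K)).det * S.H a / Om ^ (m + 1)) ∧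
      L.Fn N (Fin (m + 1)) H' ∧ ∀ a ∈ D.X, i (h a) = H' (co a) := by
  classical
  have hp := (Fact.out : p.Prime)
  have hac : IsAlgClosed Ω := IsAlgClosure.isAlgClosed F
  have hip : ‖(p : ℂ_[p])‖ < 1 := by
    have h1 := (loc_lt hL (p : Ω)).1 hV
    rwa [map_natCast] at h1
  have hiM : ‖(S.M : ℂ_[p])‖ = 1 := by
    refine le_antisymm (a7_nat S.M) ?_
    by_contra hlt
    push Not at hlt
    have h1 : ((S.e₁ : ℂ_[p])) * S.M + S.e₂ * (p : ℂ_[p]) ^ N = 1 := by exact_mod_cast congrArg (Int.cast (R := ℂ_[p])) hS.bez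
    have h2 : ‖((S.e₁ : ℂ_[p])) * S.M + S.e₂ * (p : ℂ_[p]) ^ N‖ < 1 := by
      refine (IsUltrametricDist.norm_add_le_max _ _).trans_lt (max_lt ?_ ?_)
      · rw [norm_mul]
        exact (mul_le_of_le_one_left (norm_nonneg _) (IsUltrametricDist.norm_intCast_le_one _ _)).trans_lt hlt
      · rw [norm_mul, norm_pow]
        exact (mul_le_of_le_one_left (pow_nonneg (norm_nonneg _) _) (IsUltrametricDist.norm_intCast_le_one _ _)).trans_lt
          (pow_lt_one₀ (norm_nonneg _) hip (by omega))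
    rw [h1, NormOneClass.norm_one] at h2
    exact lt_irrefl _ h2
  have hpM : ¬ p ∣ S.M := by
    rintro ⟨c, hc⟩
    rw [hc, Nat.cast_mul, norm_mul] at hiM
    have h1 : ‖(p : ℂ_[p])‖ * ‖(c : ℂ_[p])‖ < 1 :=
      (mul_le_of_le_one_right (norm_nonneg _) (a7_nat c)).trans_lt hip
    exact h1.ne hiM
  have hle2 : ¬ l ∣ (S.e₂ : 𝓞 F) := by
    intro h1
    apply hl.not_isUnit
    rw [isUnit_iff_dvd_one]
    have h2 : ((S.e₁ : 𝓞 F)) * S.M + S.e₂ * (p : 𝓞 F) ^ N = 1 := by exact_mod_cast congrArg (Int.cast (R := 𝓞 F)) hS.bez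
    rw [← h2]
    exact dvd_add (Dvd.dvd.mul_left hS.lM _) (Dvd.dvd.mul_right h1 _)
  -- the traces
  have hone : ∀ (x : 𝓞 K) (k : Fin (m + 1)), ∃ y : 𝓞 F, x ∈ D.X → D.Tr (S.A k) x = eF F (1 + l * y) := by
    intro x k
    by_cases hx : x ∈ D.X
    · obtain ⟨y, hy⟩ := hS.dir.one x hx k
      exact ⟨y, fun _ => hy⟩
    · exact ⟨0, fun h => absurd h hx⟩
  choose yy hyy using hone
  have hdd : ∀ (k : Fin (m + 1)) (s : Fin 2), ∃ y : 𝓞 F, S.d k s = eF F (l * y) := fun k s =>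
    dirN_tr D l (2 * p ^ N) S.A S.w' hS.dir (S.w' (k, s)) (hS.dir.mem _) k
  choose dd hdd using hdd
  choose c hc using fun k => lin_form2 (N := N) D hD.emb hp ω₀ co hco (hA k)
  let τ : 𝓞 K → Fin (m + 1) → 𝓞 F := fun β k => S.e₂ * (1 + l * yy β k) - l * dd k 0 - l * dd k 1
  have hτ : ∀ β k, ¬ l ∣ τ β k := by
    intro β k h1
    apply hle2
    have h2 : (S.e₂ : 𝓞 F) = τ β k - l * (S.e₂ * yy β k - dd k 0 - dd k 1) := by
      show _ = (S.e₂ * (1 + l * yy β k) - l * dd k 0 - l * dd k 1) - l * (S.e₂ * yy β k - dd k 0 - dd k 1)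
      ring
    rw [h2]
    exact dvd_sub h1 (Dvd.intro _ rfl)
  have hGV := d.good V hV
  have htp := fun β k => term_fn d.cma hGV hV hL N (ι := Fin (m + 1)) (fun s => (-1) ^ N * (S.e₁ : 𝓞 F) * c k s) (δ := l * (dd k 0 + dd k 1))
    hS.ne hpM hl hlp hS.lM (Dvd.intro _ rfl) (hτ β k)
  have htm := fun β k => term_fn d.cma hGV hV hL N (ι := Fin (m + 1)) (fun s => (-1) ^ N * (S.e₁ : 𝓞 F) * c k s) (δ := l * (dd k 0 - dd k 1))
    hS.ne hpM hl hlp hS.lM (Dvd.intro _ rfl) (hτ β k)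
  choose hhp hp1 hp2 using htp
  choose hhm hm1 hm2 using htm
  obtain ⟨ω, hω, hω'⟩ := det2 d.cma V hV D hD.emb ω₀ S.A hA
  have hiω : ‖i ω‖ ≤ 1 := (loc_le hL _).1 hω'
  have hs := hL.ok.small
  refine ⟨fun a => ω * ∑ β ∈ S.B, (S.G β : Ω) * ∏ k, ((S.M : Ω)⁻¹ * (hhp β k (co a) - hhm β k (co a))),
    fun b => i ω * ∑ β ∈ S.B, (S.G β : ℂ_[p]) * ∏ k, ((S.M : ℂ_[p])⁻¹ * (i (hhp β k b) - i (hhm β k b))), ?_, ?_, ?_⟩
  · intro a ha
    -- the torsion points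
    have hz : ∀ β ∈ S.B, ∀ k, ∃ w ∈ (LF F).lattice, S.z a β k =
        (eF F (∑ s, (-1) ^ N * (S.e₁ : 𝓞 F) * c k s * co a s) / (-(p : ℂ)) ^ N + eF F (τ β k) / S.M) + w := by
      intro β hβ k
      obtain ⟨t, ht⟩ := hc k a _ (hyy a k ha)
      refine ⟨eF F (S.e₁ * t), (mem_LF _).2 ⟨_, rfl⟩, ?_⟩
      have hp0 : (p : ℂ) ≠ 0 := Nat.cast_ne_zero.2 hp.ne_zero
      have h1 : D.Tr (S.A k) a = eF F (∑ s, c k s * co a s) + (p : ℂ) ^ N * eF F t := by
        rw [hyy a k ha, ← map_natCast (eF F) p, ← map_pow, ← map_mul, ← map_add]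
        congr 1
        rw [← ht]
        ring
      have h2 : eF F (∑ s, (-1) ^ N * (S.e₁ : 𝓞 F) * c k s * co a s) =
          (-1) ^ N * S.e₁ * eF F (∑ s, c k s * co a s) := by
        have h3 : ∑ s, (-1) ^ N * (S.e₁ : 𝓞 F) * c k s * co a s = (-1) ^ N * (S.e₁ : 𝓞 F) * ∑ s, c k s * co a s := by
          rw [Finset.mul_sum]
          refine Finset.sum_congr rfl fun s _ => ?_
          ring
        rw [h3, map_mul, map_mul, map_pow, map_neg, map_one, map_intCast]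
      have h4 : S.e₂ * D.Tr (S.A k) β - S.d k 0 - S.d k 1 = eF F (τ β k) := by
        rw [hyy β k (hS.rep.sub β hβ), hdd, hdd]
        show _ = eF F (S.e₂ * (1 + l * yy β k) - l * dd k 0 - l * dd k 1)
        rw [map_sub, map_sub, map_mul (eF F) (S.e₂ : 𝓞 F), map_intCast]
      unfold LD.z
      rw [h4, h1, h2, map_mul, map_intCast]
      have h5 : (-(p : ℂ)) ^ N = (-1) ^ N * (p : ℂ) ^ N := by
        rw [← mul_pow, neg_one_mul]
      have h6 : ((-1 : ℂ)) ^ N ≠ 0 := pow_ne_zero _ (by norm_num)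
      rw [h5]
      push_cast
      field_simp
      ring
    have hd1 : ∀ k, (S.d k 0 + S.d k 1) / S.M = eF F (l * (dd k 0 + dd k 1)) / (S.M : ℂ) := fun k => by
      rw [hdd, hdd, ← map_add, mul_add]
    have hd2 : ∀ k, (S.d k 0 - S.d k 1) / S.M = eF F (l * (dd k 0 - dd k 1)) / (S.M : ℂ) := fun k => by
      rw [hdd, hdd, ← map_sub, mul_sub]
    rw [map_mul, hω, map_sum, LD.H, ← mul_assoc, mul_div_assoc, Finset.sum_div]
    congr 1
    refine Finset.sum_congr rfl fun β hβ => ?_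
    rw [map_mul, map_intCast, map_prod, mul_div_assoc]
    congr 1
    have h7 : Om ^ (m + 1) = ∏ _k : Fin (m + 1), Om := by
      rw [Finset.prod_const, Finset.card_univ, Fintype.card_fin]
    rw [h7, ← Finset.prod_div_distrib]
    refine Finset.prod_congr rfl fun k _ => ?_
    obtain ⟨w, hw, hz⟩ := hz β hβ k
    rw [map_mul, map_inv₀, map_natCast, map_sub, hp1, hm1, hz, T2_perz _ _ _ hw, T2_perz _ _ _ hw, hd1, hd2]
    ring
  · refine Fn_scal hs hiω (Fn_sum _ fun β _ => Fn_scal hs (IsUltrametricDist.norm_intCast_le_one _ _) (Fn_prod hs _ fun k _ =>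
      Fn_scal hs ?_ (Fn_sub (hp2 β k) (hm2 β k))))
    rw [norm_inv, hiM, inv_one]
  · intro a ha
    simp only [map_mul, map_sum, map_prod, map_intCast, map_inv₀, map_natCast, map_sub]

end SSG.V
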