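import Mathlib
import Pool.Agent.Lib.SSG.V.V7

/-! # SSG, part V: one class, arbitrary K, p inert, coordinates of the user's choice -/

open NumberField IsDedekindDomain

namespace SSG.V

open H55N H55P SSG.E
open H35P (WAB Ker tt)
open H55K (CMA Dta)

variable {F : Type} [Field F] [NumberField F] [IQ F]

/-- The square of the determinant of the conjugates is the discriminant. -/
theorem det_sq {K : Type} [Field K] [NumberField K] [Algebra F K] {m : ℕ} {σ : Fin (m + 1) → K →+* ℂ} (hE : Emb F σ)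
    (ω₀ : Fin (m + 1) → 𝓞 K) : (Matrix.of fun i s => σ i (ω₀ s : K)).det ^ 2 =
      embF F (Algebra.discr F fun s => (ω₀ s : K)) := by
  rw [Algebra.discr_def, RingHom.map_det, sq]
  nth_rewrite 1 [← Matrix.det_transpose]
  rw [← Matrix.det_mul]
  congr 1
  ext s t
  rw [Matrix.mul_apply, RingHom.mapMatrix_apply, Matrix.map_apply, Algebra.traceMatrix_apply, Algebra.traceForm_apply,
    ← trace_eq hE]
  refine Finset.sum_congr rfl fun i _ => ?_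
  rw [map_mul]
  rfl

/-- One class, arbitrary K, p inert in F: ω₀ is a family of integers of K (a basis modulo p, say), co x the coordinates modulo p^N. -/
theorem classw2 (p : ℕ) [Fact p.Prime] {M : Ideal (𝓞 F)} {l : 𝓞 F} (hM : Mod p M l)
    (K : Type) [Field K] [NumberField K] [Algebra F K] (m : ℕ)
    (hm : Module.finrank F K = m + 1) (b f : Ideal (𝓞 K)) (hb : b ≠ ⊥)
    (hbp : IsCoprime b (Ideal.span {(p : 𝓞 K)})) (hf : f ≠ ⊥)
    (hfp : IsCoprime f (Ideal.span {(p : 𝓞 K)}))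
    (c₀ : 𝓞 K) (hc : c₀ ∈ b) (hc' : c₀ ∉ Ideal.span {algebraMap (𝓞 F) (𝓞 K) l} * b) (N : ℕ) (hN : 1 ≤ N) :
    ∃ Bad : Set (Ideal (𝓞 K)), Bad.Finite ∧
      ∀ (c : Fin (m + 1) × Fin 2 → Ideal (𝓞 K)) (q : Fin (m + 1) × Fin 2 → ℕ), Smooth c q →
        (∀ i, c i ∉ Bad) → ∃ val : 𝓞 K → ℂ,
          (∀ φ : 𝓞 K → ℂ, WtJ (mK K M * f) (mK K M * f * b) c₀ (p ^ N) φ → ∃ Z : ℂ → ℂ, AnalyticOnNhd ℂ Z {s | 1 / 2 < s.re} ∧
            (∀ T : Set (𝓞 K), Transv (mK K M * f) (XS (mK K M * f * b) c₀) T →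
              ∀ s : ℂ, 3 / 2 < s.re → HasSum (fun x : T => φ x * (gw c q x * nf F s (x : 𝓞 K))) (Z s)) ∧
            ∀ R : Finset (𝓞 K), RpU (mK K M * f * b) c₀ (p ^ N) R →
              Z 1 = (((p : ℂ) ^ N)⁻¹) ^ (m + 1) * ∑ a ∈ R, φ a * val a) ∧
          ∀ (A B : F) (Om : ℂ) (Ω : Type) [Field Ω] [DecidableEq Ω] [Algebra F Ω] [IsAlgClosure F Ω] (j : Ω →+* ℂ)
            (act : 𝓞 F →+* AddMonoid.End (Pt (WAB A B) Ω)) (mm : Ideal (𝓞 F)) (ψ : Ideal (𝓞 F) →*₀ 𝓞 F),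
            Dta A B Om j act mm ψ p →
            ∀ (V : ValuationSubring Ω) (i : Ω →+* ℂ_[p]) (T : ℕ → Pt (WAB A B) Ω) (L : LTF F ℂ_[p]),
              V.valuation (p : Ω) < 1 → LocM A B Om j act p V i T L →
            ∀ (ω₀ : Fin (m + 1) → 𝓞 K) (co : 𝓞 K → Fin (m + 1) → 𝓞 F),
              (∀ x, ∃ t : 𝓞 K, x = ∑ s, algebraMap (𝓞 F) (𝓞 K) (co x s) * ω₀ s + (p : 𝓞 K) ^ N * t) →
            ∀ δ : ℂ, δ ^ 2 = embF F (Algebra.discr F fun s => (ω₀ s : K)) →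
            ∃ (h : 𝓞 K → Ω) (H' : (Fin (m + 1) → 𝓞 F) → ℂ_[p]),
              (∀ a ∈ XS (mK K M * f * b) c₀, j (h a) = δ * val a / Om ^ (m + 1)) ∧
              L.Fn N (Fin (m + 1)) H' ∧ ∀ a ∈ XS (mK K M * f * b) c₀, i (h a) = H' (co a) := by
  classical
  have hp : p.Prime := Fact.out
  obtain ⟨Bad, hBad, hcore⟩ :=
    corew2 p hp hM K m hm b f hb hbp hf hfp c₀ hc hc' (p ^ N) ⟨N, rfl⟩
  refine ⟨Bad, hBad, fun c q hs hbad => ?_⟩
  obtain ⟨σ, ν, ix, hix, sg, S, hσ, hν, hS, hA, -, hZ⟩ := hcore c q hs hbad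
  refine ⟨fun a => (ν : ℂ)⁻¹ * ∑ jx, (sg jx : ℂ) * (S jx).H a, ?_, ?_⟩
  · intro φ hφ
    obtain ⟨Z, h1, h2, h3⟩ := hZ φ hφ
    refine ⟨Z, h1, h2, fun R hR => ?_⟩
    rw [h3 R hR, Finset.mul_sum, Finset.mul_sum]
    refine Finset.sum_congr rfl fun a _ => ?_
    push_cast
    ring
  · intro A B Om Ω _ _ _ _ j act mm ψ hd V i T L hV hL ω₀ co hco δ hδ
    have hle : mK K M * f * b ≤ Ideal.span {algebraMap (𝓞 F) (𝓞 K) l} * b :=
      Ideal.mul_mono_left (Ideal.mul_le_left.trans (pc_mK hM.le))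
    have hD : (⟨σ, mK K M * f * b, c₀, c, q⟩ : H55P.Ctx F K m).Ok := ⟨hσ, fun h => hc' (hle h), hs⟩
    have hk := fun jx => ldH_fn2 hd V hV i T L hL ω₀ co hco hM.prime (pc_cop hM)
      (⟨σ, mK K M * f * b, c₀, c, q⟩ : H55P.Ctx F K m) hD (S jx) (hS jx) (hA jx) hN
    choose h H' h1 h2 h3 using hk
    obtain ⟨ep, hep, hep1⟩ : ∃ ep : ℤ, δ = ep * (Matrix.of fun i s => σ i (ω₀ s : K)).det ∧ (ep = 1 ∨ ep = -1) := by
      rcases sq_eq_sq_iff_eq_or_eq_neg.1 (hδ.trans (det_sq hσ ω₀).symm) with h | h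
      · exact ⟨1, by rw [h]; push_cast; ring, Or.inl rfl⟩
      · exact ⟨-1, by rw [h]; push_cast; ring, Or.inr rfl⟩
    refine ⟨fun a => ((ep : ℤ) : Ω) * ((ν : Ω)⁻¹ * ∑ jx, (sg jx : Ω) * h jx a),
      fun a => i ((ep : ℤ) : Ω) * (i ((ν : Ω)⁻¹) * ∑ jx, i (sg jx : Ω) * H' jx a), ?_, ?_, ?_⟩
    · intro a ha
      have e1 : ∀ jx, j (h jx a) = (Matrix.of fun i s => σ i (ω₀ s : K)).det * ((S jx).H a / Om ^ (m + 1)) := fun jx => by
        rw [h1 jx a ha, mul_div_assoc]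
      rw [map_mul, map_mul, map_inv₀, map_natCast, map_sum, map_intCast, hep]
      have e2 : ∑ jx, j ((sg jx : Ω) * h jx a) = (Matrix.of fun i s => σ i (ω₀ s : K)).det *
          ((∑ jx, (sg jx : ℂ) * (S jx).H a) / Om ^ (m + 1)) := by
        rw [Finset.sum_div, Finset.mul_sum]
        refine Finset.sum_congr rfl fun jx _ => ?_
        rw [map_mul, map_intCast, e1]
        ring
      rw [e2]
      ring
    · refine clw_mul (clw_mul (clw_sum _ _ fun jx => clw_mul (h2 jx) _ ?_) _ ?_) _ ?_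
      · exact (hL.val _).1 (intCast_mem V.toSubring (sg jx))
      · exact (hL.val _).1 (clw_val V hV ν hν)
      · exact (hL.val _).1 (intCast_mem V.toSubring ep)
    · intro a ha
      have e1 : ∀ jx, i (h jx a) = H' jx (co a) := fun jx => h3 jx a ha
      rw [map_mul, map_mul, map_sum]
      congr 2
      refine Finset.sum_congr rfl fun jx _ => ?_
      rw [map_mul, e1]

end SSG.V
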