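import Mathlib
import Pool.Agent.Lib.SSG.V.V8
import Pool.Agent.Lib.SSG.V.V11

/-! # SSG, part V: the p-adic shape of the values at a prime π of degree one, arbitrary K -/

open NumberField IsDedekindDomain

namespace SSG.V

open SSG H55N H55P SSG.E
open H35P (WAB Ker tt)
open H55K (CMA Dta GV ak)

variable {F : Type} [Field F] [NumberField F] [IQ F]

/-- The linear form of an element with p-integral traces. -/
theorem tint_lin {K : Type} [Field K] [NumberField K] [Algebra F K] {p : ℕ} {α : K} (hα : TInt (F := F) p α) :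
    ∃ (d : ℕ) (Y : 𝓞 K → 𝓞 F), ¬ p ∣ d ∧ (∀ x x', Y (x + x') = Y x + Y x') ∧
      (∀ (c : 𝓞 F) x, Y (algebraMap (𝓞 F) (𝓞 K) c * x) = c * Y x) ∧
      ∀ (x : 𝓞 K) (y : 𝓞 F), Algebra.trace F K ((x : K) * α) = (y : F) → (d : 𝓞 F) * y = Y x := by
  obtain ⟨d, hd, hd'⟩ := hα
  choose Y hY using hd'
  refine ⟨d, Y, hd, fun x x' => ?_, fun c x => ?_, fun x y hy => ?_⟩
  · apply RingOfIntegers.coe_injective
    show (Y (x + x') : F) = (Y x : F) + (Y x' : F)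
    have h1 := hY (x + x')
    rw [L2F_coe_add, add_mul, map_add, hY, hY] at h1
    exact h1.symm
  · apply RingOfIntegers.coe_injective
    show (Y (algebraMap (𝓞 F) (𝓞 K) c * x) : F) = (c : F) * (Y x : F)
    have h1 := hY (algebraMap (𝓞 F) (𝓞 K) c * x)
    rw [L2F_coe_mul, mul_assoc, L2F_trace_mul, hY] at h1
    exact h1.symm
  · apply RingOfIntegers.coe_injective
    have h4 : (x : K) * ((d : K) * α) = (d : F) • ((x : K) * α) := by
      rw [Algebra.smul_def, map_natCast]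
      ring
    have h1 := hY x
    rw [h4, map_smul, hy, smul_eq_mul] at h1
    rw [← h1, map_mul, map_natCast]

theorem bez_nat {p d : ℕ} (hp : p.Prime) (hd : ¬ p ∣ d) (N : ℕ) : ∃ a b : 𝓞 F, a * d + b * (p : 𝓞 F) ^ N = 1 := by
  have hcop : IsCoprime (d : ℤ) ((p : ℤ) ^ N) :=
    (Nat.isCoprime_iff_coprime.2 (((Nat.Prime.coprime_iff_not_dvd hp).2 hd).symm)).pow_right
  obtain ⟨a, b, hab⟩ := hcop
  exact ⟨a, b, by exact_mod_cast congrArg (Int.cast (R := 𝓞 F)) hab⟩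

theorem lin_formR {K : Type} [Field K] [NumberField K] [Algebra F K] {m N : ℕ} {p : ℕ} (D : Ctx F K m) (hE : Emb F D.σ)
    (hp : p.Prime) {π : 𝓞 F} (hπ : π ∣ (p : 𝓞 F)) (ω₀ : Fin (m + 1) → 𝓞 K) (co : 𝓞 K → Fin (m + 1) → 𝓞 F)
    (hco : ∀ x, ∃ t : 𝓞 K, x = ∑ s, algebraMap (𝓞 F) (𝓞 K) (co x s) * ω₀ s + algebraMap (𝓞 F) (𝓞 K) (π ^ N) * t) {α : K}
    (hα : TInt (F := F) p α) :
    ∃ c : Fin (m + 1) → 𝓞 F, ∀ (x : 𝓞 K) (y : 𝓞 F), D.Tr α x = eF F y →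
      π ^ N ∣ y - ∑ k, c k * co x k := by
  obtain ⟨d, Y, hd, hadd, hsm, hY⟩ := tint_lin hα
  obtain ⟨a, b, hab⟩ := bez_nat (F := F) hp hd N
  obtain ⟨e, he⟩ : π ^ N ∣ (p : 𝓞 F) ^ N := pow_dvd_pow_of_dvd hπ N
  refine ⟨fun s => a * Y (ω₀ s), fun x y hxy => ?_⟩
  obtain ⟨t, ht⟩ := hco x
  have h2 : Algebra.trace F K ((x : K) * α) = (y : F) := by
    apply (embF F).injective
    rw [← Tr_eq D hE, hxy]
    rfl
  have h3 := hY x y h2
  have hsum : ∀ s : Finset (Fin (m + 1)), Y (∑ k ∈ s, algebraMap (𝓞 F) (𝓞 K) (co x k) * ω₀ k) = ∑ k ∈ s, co x k * Y (ω₀ k) := by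
    classical
    intro s
    induction s using Finset.induction_on with
    | empty =>
      rw [Finset.sum_empty, Finset.sum_empty]
      have := hsm 0 0
      rwa [mul_zero, zero_mul] at this
    | insert k s hk ih => rw [Finset.sum_insert hk, Finset.sum_insert hk, hadd, hsm, ih]
  have h4 : Y x = ∑ k, co x k * Y (ω₀ k) + π ^ N * Y t := by
    conv_lhs => rw [ht]
    rw [hadd, hsm, hsum]
  have h6 : ∑ k, a * Y (ω₀ k) * co x k = a * ∑ k, co x k * Y (ω₀ k) := by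
    rw [Finset.mul_sum]
    refine Finset.sum_congr rfl fun s _ => by ring
  rw [h6]
  exact ⟨b * e * y + a * Y t, by linear_combination (-y) * hab + a * h3 + a * h4 + b * y * he⟩

theorem lin_cong {K : Type} [Field K] [NumberField K] [Algebra F K] {m N : ℕ} {p : ℕ} (D : Ctx F K m) (hE : Emb F D.σ)
    (hp : p.Prime) {ρ : 𝓞 F} (hρ : ρ ∣ (p : 𝓞 F)) {α : K} (hα : TInt (F := F) p α) {x x' : 𝓞 K} {y y' : 𝓞 F}
    (hy : D.Tr α x = eF F y) (hy' : D.Tr α x' = eF F y') (hxx : algebraMap (𝓞 F) (𝓞 K) (ρ ^ N) ∣ x - x') :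
    ρ ^ N ∣ y - y' := by
  obtain ⟨d, Y, hd, hadd, hsm, hY⟩ := tint_lin hα
  obtain ⟨a, b, hab⟩ := bez_nat (F := F) hp hd N
  obtain ⟨e, he⟩ : ρ ^ N ∣ (p : 𝓞 F) ^ N := pow_dvd_pow_of_dvd hρ N
  obtain ⟨t, ht⟩ := hxx
  have h1 : ∀ {x : 𝓞 K} {y : 𝓞 F}, D.Tr α x = eF F y → (d : 𝓞 F) * y = Y x := fun {x y} h => by
    refine hY x y ?_
    apply (embF F).injective
    rw [← Tr_eq D hE, h]
    rfl
  have h2 := h1 hy
  have h3 := h1 hy'
  have h4 : Y x = ρ ^ N * Y t + Y x' := by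
    rw [← hsm, ← hadd, ← ht, sub_add_cancel]
  exact ⟨a * Y t + b * e * (y - y'), by linear_combination (-(y - y')) * hab + a * h2 - a * h3 + a * h4 + b * (y - y') * he⟩

/-- One class of a modulo ρ^N. -/
theorem ldH_clsR {A B : F} {Om : ℂ} {Ω : Type} [Field Ω] [DecidableEq Ω]
    [Algebra F Ω] [IsAlgClosure F Ω] {j : Ω →+* ℂ} {act : 𝓞 F →+* AddMonoid.End (Pt (WAB A B) Ω)}
    {mm : Ideal (𝓞 F)} {ψ : Ideal (𝓞 F) →*₀ 𝓞 F} {p : ℕ} [Fact p.Prime] (d : Dta A B Om j act mm ψ p)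
    {π ρ : 𝓞 F} (hpr : (p : 𝓞 F) = π * ρ) (hcop : IsCoprime π ρ)
    (V : ValuationSubring Ω) (hV : V.valuation (ak Ω π) < 1)
    (i : Ω →+* ℂ_[p]) (T : ℕ → Pt (WAB A B) Ω) (hL : LocR A B Om j act p π V i T)
    {K : Type} [Field K] [NumberField K] [Algebra F K] {m N : ℕ}
    (ω₀ : Fin (m + 1) → 𝓞 K) (co : 𝓞 K → Fin (m + 1) → 𝓞 F)
    (hco : ∀ x, ∃ t : 𝓞 K, x = ∑ s, algebraMap (𝓞 F) (𝓞 K) (co x s) * ω₀ s + algebraMap (𝓞 F) (𝓞 K) (π ^ N) * t)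
    {l : 𝓞 F} (hl : Prime l) (hlp : IsCoprime l (p : 𝓞 F)) (D : H55P.Ctx F K m) (hD : D.Ok) (S : LD D l (p ^ N)) (hS : S.Ok)
    (hA : ∀ k, TInt (F := F) p (S.A k)) (hN : 1 ≤ N) (a₀ : 𝓞 K) (ha₀ : a₀ ∈ D.X) :
    ∃ hf : (Fin (m + 1) → 𝓞 F) → Ω, (∀ a ∈ D.X, algebraMap (𝓞 F) (𝓞 K) (ρ ^ N) ∣ a - a₀ →
        j (hf (co a)) = (Matrix.of fun i s => D.σ i (ω₀ s : K)).det * S.H a / Om ^ (m + 1)) ∧
      (LR act i T).Fn N (Fin (m + 1)) fun b => i (hf b) := by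
  classical
  have hp := (Fact.out : p.Prime)
  have hac : IsAlgClosed Ω := IsAlgClosure.isAlgClosed F
  have hmul : ∀ x y : 𝓞 F, ak Ω (x * y) = ak Ω x * ak Ω y := fun x y => by
    show algebraMap F Ω (algebraMap (𝓞 F) F (x * y)) = _
    rw [map_mul, map_mul]
  have hadd : ∀ x y : 𝓞 F, ak Ω (x + y) = ak Ω x + ak Ω y := fun x y => by
    show algebraMap F Ω (algebraMap (𝓞 F) F (x + y)) = _
    rw [map_add, map_add]
  have hnat : ∀ n : ℕ, ak Ω (n : 𝓞 F) = (n : Ω) := fun n => by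
    show algebraMap F Ω (algebraMap (𝓞 F) F (n : 𝓞 F)) = _
    rw [map_natCast, map_natCast]
  have hone : ak Ω (1 : 𝓞 F) = 1 := by
    have := hnat 1
    rwa [Nat.cast_one, Nat.cast_one] at this
  have hint : ∀ x : 𝓞 F, V.valuation (ak Ω x) ≤ 1 := fun x => by
    have h1 : IsIntegral ℤ (ak Ω x) := map_isIntegral_int (algebraMap F Ω) x.2
    have h3 : IsIntegral V (ak Ω x) := h1.tower_top
    obtain ⟨t, ht⟩ := IsIntegrallyClosed.isIntegral_iff.1 h3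
    rw [← ht]
    exact V.valuation_le_one t
  have hVp : V.valuation (p : Ω) < 1 := by
    rw [← hnat, hpr, hmul, map_mul]
    exact (mul_le_of_le_one_right' (hint ρ)).trans_lt hV
  have hVρ : V.valuation (ak Ω ρ) = 1 := by
    refine le_antisymm (hint ρ) ?_
    by_contra hlt
    push Not at hlt
    obtain ⟨x, y, hxy⟩ := hcop
    have h1 : V.valuation (ak Ω (x * π + y * ρ)) < 1 := by
      rw [hadd, hmul, hmul]
      refine V.valuation.map_add_lt ?_ ?_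
      · rw [map_mul]
        exact (mul_le_of_le_one_left' (hint x)).trans_lt hV
      · rw [map_mul]
        exact (mul_le_of_le_one_left' (hint y)).trans_lt hlt
    rw [hxy, hone, map_one] at h1
    exact lt_irrefl _ h1
  have hip : ‖(p : ℂ_[p])‖ < 1 := by
    have h1 := (loc_ltR hL (p : Ω)).1 hVp
    rwa [map_natCast] at h1
  have hiM : ‖(S.M : ℂ_[p])‖ = 1 := by
    refine le_antisymm (a7_nat S.M) ?_
    by_contra hlt
    push Not at hlt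
    have h1 : ((S.e₁ : ℂ_[p])) * S.M + S.e₂ * (p : ℂ_[p]) ^ N = 1 := by exact_mod_cast congrArg (Int.cast (R := ℂ_[p])) hS.bez
    have h2 : ‖((S.e₁ : ℂ_[p])) * S.M + S.e₂ * (p : ℂ_[p]) ^ N‖ < 1 := by
      refine (IsUltrametricDist.norm_add_le_max _ _).trans_lt (max_lt ?_ ?_)
      · rw [norm_mul]
        exact (mul_le_of_le_one_left (norm_nonneg _) (IsUltrametricDist.norm_intCast_le_one _ _)).trans_lt hlt
      · rw [norm_mul, norm_pow]
        exact (mul_le_of_le_one_left (pow_nonneg (norm_nonneg _) _) (IsUltrametricDist.norm_intCast_le_one _ _)).trans_lt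
          (pow_lt_one₀ (norm_nonneg _) hip (by omega))
    rw [h1, NormOneClass.norm_one] at h2
    exact lt_irrefl _ h2
  have hpM : ¬ p ∣ S.M := by
    rintro ⟨c, hc⟩
    rw [hc, Nat.cast_mul, norm_mul] at hiM
    have h1 : ‖(p : ℂ_[p])‖ * ‖(c : ℂ_[p])‖ < 1 :=
      (mul_le_of_le_one_right (norm_nonneg _) (a7_nat c)).trans_lt hip
    exact h1.ne hiM
  have hle2 : ¬ l ∣ (S.e₂ : 𝓞 F) := by
    intro h1
    apply hl.not_isUnit
    rw [isUnit_iff_dvd_one]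
    have h2 : ((S.e₁ : 𝓞 F)) * S.M + S.e₂ * (p : 𝓞 F) ^ N = 1 := by exact_mod_cast congrArg (Int.cast (R := 𝓞 F)) hS.bez
    rw [← h2]
    exact dvd_add (Dvd.dvd.mul_left hS.lM _) (Dvd.dvd.mul_right h1 _)
  have hlπ : ¬ l ∣ π := fun h1 => hl.not_isUnit (hlp.isUnit_of_dvd' dvd_rfl (hpr ▸ Dvd.dvd.mul_right h1 ρ))
  have hlρ : ¬ l ∣ ρ ^ N := fun h1 => hl.not_isUnit (hlp.isUnit_of_dvd' dvd_rfl
    (hpr ▸ Dvd.dvd.mul_left (hl.dvd_of_dvd_pow h1) π))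
  -- the traces
  have hone : ∀ (x : 𝓞 K) (k : Fin (m + 1)), ∃ y : 𝓞 F, x ∈ D.X → D.Tr (S.A k) x = eF F (1 + l * y) := by
    intro x k
    by_cases hx : x ∈ D.X
    · obtain ⟨y, hy⟩ := hS.dir.one x hx k
      exact ⟨y, fun _ => hy⟩
    · exact ⟨0, fun h => absurd h hx⟩
  choose yy hyy using hone
  have hdd : ∀ (k : Fin (m + 1)) (s : Fin 2), ∃ y : 𝓞 F, S.d k s = eF F (l * y) := fun k s =>
    dirN_tr D l (2 * p ^ N) S.A S.w' hS.dir (S.w' (k, s)) (hS.dir.mem _) k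
  choose dd hdd using hdd
  choose c hc using fun k => lin_formR (N := N) D hD.emb hp (hpr ▸ dvd_mul_right π ρ : π ∣ (p : 𝓞 F)) ω₀ co hco (hA k)
  obtain ⟨u, v, huv⟩ : ∃ u v : 𝓞 F, u * π ^ N + v * ρ ^ N = 1 := hcop.pow
  let τ₀ : 𝓞 K → Fin (m + 1) → 𝓞 F := fun β k => S.e₂ * (1 + l * yy β k) - l * dd k 0 - l * dd k 1
  let τ : 𝓞 K → Fin (m + 1) → 𝓞 F := fun β k => τ₀ β k * ρ ^ N + S.M * (u * S.e₁ * (1 + l * yy a₀ k))
  have hτ₀ : ∀ β k, ¬ l ∣ τ₀ β k := by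
    intro β k h1
    apply hle2
    have h2 : (S.e₂ : 𝓞 F) = τ₀ β k - l * (S.e₂ * yy β k - dd k 0 - dd k 1) := by
      show _ = (S.e₂ * (1 + l * yy β k) - l * dd k 0 - l * dd k 1) - l * (S.e₂ * yy β k - dd k 0 - dd k 1)
      ring
    rw [h2]
    exact dvd_sub h1 (Dvd.intro _ rfl)
  have hτ : ∀ β k, ¬ l ∣ τ β k := by
    intro β k h1
    have h2 : l ∣ τ₀ β k * ρ ^ N := by
      have h3 : τ₀ β k * ρ ^ N = τ β k - S.M * (u * S.e₁ * (1 + l * yy a₀ k)) := by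
        show _ = (τ₀ β k * ρ ^ N + S.M * (u * S.e₁ * (1 + l * yy a₀ k))) - S.M * (u * S.e₁ * (1 + l * yy a₀ k))
        ring
      rw [h3]
      exact dvd_sub h1 (hS.lM.mul_right _)
    rcases hl.dvd_or_dvd h2 with h4 | h4
    · exact hτ₀ β k h4
    · exact hlρ h4
  have hρ0 : ρ ≠ 0 := by
    rintro rfl
    rw [mul_zero] at hpr
    exact hp.ne_zero (by exact_mod_cast hpr)
  have hM0 : (S.M : 𝓞 F) * ρ ^ N ≠ 0 := mul_ne_zero (Nat.cast_ne_zero.2 hS.ne) (pow_ne_zero _ hρ0)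
  have hVM : V.valuation (ak Ω ((S.M : 𝓞 F) * ρ ^ N)) = 1 := by
    have h1 : ak Ω (ρ ^ N) = ak Ω ρ ^ N := by
      show algebraMap F Ω (algebraMap (𝓞 F) F (ρ ^ N)) = _
      rw [map_pow, map_pow]
    rw [hmul, hnat, h1, map_mul, map_pow, hVρ, one_pow, mul_one]
    exact a9_val hVp hpM
  have hGV := d.good V hVp
  have hM' : l ∣ (S.M : 𝓞 F) * ρ ^ N := hS.lM.mul_right _
  have htp := fun β k => term_fnR d.cma hGV hL N (ι := Fin (m + 1)) (fun s => v * (S.e₁ : 𝓞 F) * c k s)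
    (δ := l * (dd k 0 + dd k 1) * ρ ^ N) hM0 hVM hl hlπ hM' (Dvd.intro _ (mul_assoc _ _ _).symm) (hτ β k)
  have htm := fun β k => term_fnR d.cma hGV hL N (ι := Fin (m + 1)) (fun s => v * (S.e₁ : 𝓞 F) * c k s)
    (δ := l * (dd k 0 - dd k 1) * ρ ^ N) hM0 hVM hl hlπ hM' (Dvd.intro _ (mul_assoc _ _ _).symm) (hτ β k)
  choose hhp hp1 hp2 using htp
  choose hhm hm1 hm2 using htm
  obtain ⟨ω, hω, hω'⟩ := det2 d.cma V hVp D hD.emb ω₀ S.A hA
  have hiω : ‖i ω‖ ≤ 1 := (loc_leR hL _).1 hω'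
  have hs := (okR hGV hL).small
  refine ⟨fun b => ω * ∑ β ∈ S.B, (S.G β : Ω) * ∏ k, ((S.M : Ω)⁻¹ * (hhp β k b - hhm β k b)), ?_, ?_⟩
  · intro a ha hcl
    -- the torsion points
    have hp0 : (p : ℂ) ≠ 0 := Nat.cast_ne_zero.2 hp.ne_zero
    have hπC : eF F π ≠ 0 := fun h0 => hL.ne (H55P.eF_inj (h0.trans (map_zero _).symm))
    have hρC : eF F ρ ≠ 0 := fun h0 => hρ0 (H55P.eF_inj (h0.trans (map_zero _).symm))
    have hMC : (S.M : ℂ) ≠ 0 := Nat.cast_ne_zero.2 hS.ne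
    have hpC : (p : ℂ) ^ N = eF F π ^ N * eF F ρ ^ N := by
      rw [← mul_pow, ← map_mul, ← hpr, map_natCast]
    have hM'C : eF F ((S.M : 𝓞 F) * ρ ^ N) = (S.M : ℂ) * eF F ρ ^ N := by rw [map_mul, map_natCast, map_pow]
    have hz : ∀ β ∈ S.B, ∀ k, ∃ w ∈ (LF F).lattice, S.z a β k =
        (eF F (∑ s, v * (S.e₁ : 𝓞 F) * c k s * co a s) / (eF F π) ^ N + eF F (τ β k) / eF F ((S.M : 𝓞 F) * ρ ^ N)) + w := by
      intro β hβ k
      obtain ⟨t₁, ht₁⟩ := hc k a _ (hyy a k ha)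
      obtain ⟨t₂, ht₂⟩ := lin_cong D hD.emb hp (hpr ▸ dvd_mul_left ρ π : ρ ∣ (p : 𝓞 F)) (hA k) (hyy a k ha) (hyy a₀ k ha₀) hcl
      refine ⟨eF F (S.e₁ * (v * t₁ + u * t₂)), (mem_LF _).2 ⟨_, rfl⟩, ?_⟩
      have h4 : S.e₂ * D.Tr (S.A k) β - S.d k 0 - S.d k 1 = eF F (τ₀ β k) := by
        rw [hyy β k (hS.rep.sub β hβ), hdd, hdd]
        show _ = eF F (S.e₂ * (1 + l * yy β k) - l * dd k 0 - l * dd k 1)
        rw [map_sub, map_sub, map_mul (eF F) (S.e₂ : 𝓞 F), map_intCast]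
      have h3 : ∑ s, v * (S.e₁ : 𝓞 F) * c k s * co a s = v * (S.e₁ : 𝓞 F) * (1 + l * yy a k - π ^ N * t₁) := by
        have h5 : 1 + l * yy a k - π ^ N * t₁ = ∑ s, c k s * co a s := by linear_combination ht₁
        rw [h5, Finset.mul_sum]
        refine Finset.sum_congr rfl fun s _ => ?_
        ring
      have h6 : τ β k = τ₀ β k * ρ ^ N + S.M * (u * S.e₁ * (1 + l * yy a k - ρ ^ N * t₂)) := by
        have h7 : 1 + l * yy a k - ρ ^ N * t₂ = 1 + l * yy a₀ k := by linear_combination ht₂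
        rw [h7]
      have h8 : eF F (S.e₁ * (1 + l * yy a k)) = eF F (S.e₁ * (1 + l * yy a k) * (u * π ^ N + v * ρ ^ N)) := by
        rw [huv, mul_one]
      unfold LD.z
      rw [h4, h3, h6, hM'C, hyy a k ha]
      have h9 : (S.e₁ : ℂ) * eF F (1 + l * yy a k) = eF F (S.e₁ * (1 + l * yy a k)) := by
        rw [map_mul, map_intCast]
      have h10 : ((p ^ N : ℕ) : ℂ) = eF F π ^ N * eF F ρ ^ N := by
        rw [Nat.cast_pow]
        exact hpC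
      rw [h10]
      simp only [map_mul, map_add, map_sub, map_pow, map_intCast, map_natCast, map_one] at h8 ⊢
      field_simp
      linear_combination (S.M : ℂ) * h8
    have hd1 : ∀ k, (S.d k 0 + S.d k 1) / S.M = eF F (l * (dd k 0 + dd k 1) * ρ ^ N) / eF F ((S.M : 𝓞 F) * ρ ^ N) := fun k => by
      rw [hdd, hdd, ← map_add, ← mul_add, hM'C, map_mul _ _ (ρ ^ N), map_pow]
      field_simp
    have hd2 : ∀ k, (S.d k 0 - S.d k 1) / S.M = eF F (l * (dd k 0 - dd k 1) * ρ ^ N) / eF F ((S.M : 𝓞 F) * ρ ^ N) := fun k => by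
      rw [hdd, hdd, ← map_sub, ← mul_sub, hM'C, map_mul _ _ (ρ ^ N), map_pow]
      field_simp
    rw [map_mul, hω, map_sum, LD.H, ← mul_assoc, mul_div_assoc, Finset.sum_div]
    congr 1
    refine Finset.sum_congr rfl fun β hβ => ?_
    rw [map_mul, map_intCast, map_prod, mul_div_assoc]
    congr 1
    have h7 : Om ^ (m + 1) = ∏ _k : Fin (m + 1), Om := by
      rw [Finset.prod_const, Finset.card_univ, Fintype.card_fin]
    rw [h7, ← Finset.prod_div_distrib]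
    refine Finset.prod_congr rfl fun k _ => ?_
    obtain ⟨w, hw, hz⟩ := hz β hβ k
    rw [map_mul, map_inv₀, map_natCast, map_sub, hp1, hm1, hz, T2_perz _ _ _ hw, T2_perz _ _ _ hw, hd1, hd2]
    ring
  · have e : (fun b : Fin (m + 1) → 𝓞 F => i (ω * ∑ β ∈ S.B, (S.G β : Ω) * ∏ k, ((S.M : Ω)⁻¹ * (hhp β k b - hhm β k b)))) =
        fun b => i ω * ∑ β ∈ S.B, (S.G β : ℂ_[p]) * ∏ k, ((S.M : ℂ_[p])⁻¹ * (i (hhp β k b) - i (hhm β k b))) := by
      funext b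
      simp only [map_mul, map_sum, map_prod, map_intCast, map_inv₀, map_natCast, map_sub]
    rw [e]
    refine Fn_scal hs hiω (Fn_sum _ fun β _ => Fn_scal hs (IsUltrametricDist.norm_intCast_le_one _ _) (Fn_prod hs _ fun k _ =>
      Fn_scal hs ?_ (Fn_sub (hp2 β k) (hm2 β k))))
    rw [norm_inv, hiM, inv_one]

end SSG.V
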