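import Mathlib
import Pool.Agent.Lib.SSG.V.V12

/-! # SSG, part V: one class, arbitrary K, at a prime π of degree one with p = π ρ -/

open NumberField IsDedekindDomain

namespace SSG.V

open SSG H55N H55P SSG.E
open H35P (WAB Ker tt)
open H55K (CMA Dta GV ak)

variable {F : Type} [Field F] [NumberField F] [IQ F]

/-- The values at a prime of degree one: h, and on every class of a modulo ρ^N an integral function of the coordinates modulo π^N. -/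
theorem ldH_fnR {A B : F} {Om : ℂ} {Ω : Type} [Field Ω] [DecidableEq Ω]
    [Algebra F Ω] [IsAlgClosure F Ω] {j : Ω →+* ℂ} {act : 𝓞 F →+* AddMonoid.End (Pt (WAB A B) Ω)}
    {mm : Ideal (𝓞 F)} {ψ : Ideal (𝓞 F) →*₀ 𝓞 F} {p : ℕ} [Fact p.Prime] (d : Dta A B Om j act mm ψ p)
    {π ρ : 𝓞 F} (hpr : (p : 𝓞 F) = π * ρ) (hcop : IsCoprime π ρ)
    (V : ValuationSubring Ω) (hV : V.valuation (ak Ω π) < 1)
    (i : Ω →+* ℂ_[p]) (T : ℕ → Pt (WAB A B) Ω) (hL : LocR A B Om j act p π V i T)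
    {K : Type} [Field K] [NumberField K] [Algebra F K] {m N : ℕ}
    (ω₀ : Fin (m + 1) → 𝓞 K) (co : 𝓞 K → Fin (m + 1) → 𝓞 F)
    (hco : ∀ x, ∃ t : 𝓞 K, x = ∑ s, algebraMap (𝓞 F) (𝓞 K) (co x s) * ω₀ s + algebraMap (𝓞 F) (𝓞 K) (π ^ N) * t)
    {l : 𝓞 F} (hl : Prime l) (hlp : IsCoprime l (p : 𝓞 F)) (D : H55P.Ctx F K m) (hD : D.Ok) (S : LD D l (p ^ N)) (hS : S.Ok)
    (hA : ∀ k, TInt (F := F) p (S.A k)) (hN : 1 ≤ N) :
    ∃ h : 𝓞 K → Ω, (∀ a ∈ D.X, j (h a) = (Matrix.of fun i s => D.σ i (ω₀ s : K)).det * S.H a / Om ^ (m + 1)) ∧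
      ∀ a₀ : 𝓞 K, ∃ H' : (Fin (m + 1) → 𝓞 F) → ℂ_[p], (LR act i T).Fn N (Fin (m + 1)) H' ∧
        ∀ a ∈ D.X, algebraMap (𝓞 F) (𝓞 K) (ρ ^ N) ∣ a - a₀ → i (h a) = H' (co a) := by
  classical
  have hcls : ∀ a₀ : 𝓞 K, ∃ hf : (Fin (m + 1) → 𝓞 F) → Ω, a₀ ∈ D.X → (∀ a ∈ D.X, algebraMap (𝓞 F) (𝓞 K) (ρ ^ N) ∣ a - a₀ →
        j (hf (co a)) = (Matrix.of fun i s => D.σ i (ω₀ s : K)).det * S.H a / Om ^ (m + 1)) ∧
      (LR act i T).Fn N (Fin (m + 1)) fun b => i (hf b) := by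
    intro a₀
    by_cases ha₀ : a₀ ∈ D.X
    · obtain ⟨hf, h1, h2⟩ := ldH_clsR d hpr hcop V hV i T hL ω₀ co hco hl hlp D hD S hS hA hN a₀ ha₀
      exact ⟨hf, fun _ => ⟨h1, h2⟩⟩
    · exact ⟨fun _ => 0, fun h => absurd h ha₀⟩
  choose hf hhf using hcls
  refine ⟨fun a => hf a (co a), fun a ha => (hhf a ha).1 a ha (by rw [sub_self]; exact dvd_zero _), fun a₀ => ?_⟩
  by_cases hex : ∃ a₁ ∈ D.X, algebraMap (𝓞 F) (𝓞 K) (ρ ^ N) ∣ a₁ - a₀
  · obtain ⟨a₁, ha₁, hd₁⟩ := hex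
    refine ⟨fun b => i (hf a₁ b), (hhf a₁ ha₁).2, fun a ha hd => ?_⟩
    have h1 := (hhf a ha).1 a ha (by rw [sub_self]; exact dvd_zero _)
    have h2 := (hhf a₁ ha₁).1 a ha (by
      have h3 : a - a₁ = (a - a₀) - (a₁ - a₀) := by ring
      rw [h3]
      exact dvd_sub hd hd₁)
    show i (hf a (co a)) = i (hf a₁ (co a))
    rw [j.injective (h1.trans h2.symm)]
  · refine ⟨fun _ => 0, Fn_const (by rw [norm_zero]; exact zero_le_one), fun a ha hd => absurd ⟨a, ha, hd⟩ hex⟩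

/-- One class, arbitrary K, values at the primes of degree one above p, for weights modulo p^N; ω₀ is a family of integers of K (a basis modulo
π, say), co x the coordinates modulo π^N. -/
theorem classwR (p : ℕ) [Fact p.Prime] {M : Ideal (𝓞 F)} {l : 𝓞 F} (hM : Mod p M l)
    (K : Type) [Field K] [NumberField K] [Algebra F K] (m : ℕ)
    (hm : Module.finrank F K = m + 1) (b f : Ideal (𝓞 K)) (hb : b ≠ ⊥)
    (hbp : IsCoprime b (Ideal.span {(p : 𝓞 K)})) (hf : f ≠ ⊥)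
    (hfp : IsCoprime f (Ideal.span {(p : 𝓞 K)}))
    (c₀ : 𝓞 K) (hc : c₀ ∈ b) (hc' : c₀ ∉ Ideal.span {algebraMap (𝓞 F) (𝓞 K) l} * b) (N : ℕ) (hN : 1 ≤ N) :
    ∃ Bad : Set (Ideal (𝓞 K)), Bad.Finite ∧
      ∀ (c : Fin (m + 1) × Fin 2 → Ideal (𝓞 K)) (q : Fin (m + 1) × Fin 2 → ℕ), Smooth c q →
        (∀ i, c i ∉ Bad) → ∃ val : 𝓞 K → ℂ,
          (∀ φ : 𝓞 K → ℂ, WtJ (mK K M * f) (mK K M * f * b) c₀ (p ^ N) φ → ∃ Z : ℂ → ℂ, AnalyticOnNhd ℂ Z {s | 1 / 2 < s.re} ∧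
            (∀ T : Set (𝓞 K), Transv (mK K M * f) (XS (mK K M * f * b) c₀) T →
              ∀ s : ℂ, 3 / 2 < s.re → HasSum (fun x : T => φ x * (gw c q x * nf F s (x : 𝓞 K))) (Z s)) ∧
            ∀ R : Finset (𝓞 K), RpU (mK K M * f * b) c₀ (p ^ N) R →
              Z 1 = (((p : ℂ) ^ N)⁻¹) ^ (m + 1) * ∑ a ∈ R, φ a * val a) ∧
          ∀ (A B : F) (Om : ℂ) (Ω : Type) [Field Ω] [DecidableEq Ω] [Algebra F Ω] [IsAlgClosure F Ω] (j : Ω →+* ℂ)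
            (act : 𝓞 F →+* AddMonoid.End (Pt (WAB A B) Ω)) (mm : Ideal (𝓞 F)) (ψ : Ideal (𝓞 F) →*₀ 𝓞 F),
            Dta A B Om j act mm ψ p →
            ∀ (π ρ : 𝓞 F), (p : 𝓞 F) = π * ρ → IsCoprime π ρ →
            ∀ (V : ValuationSubring Ω) (i : Ω →+* ℂ_[p]) (T : ℕ → Pt (WAB A B) Ω),
              V.valuation (ak Ω π) < 1 → LocR A B Om j act p π V i T →
            ∀ (ω₀ : Fin (m + 1) → 𝓞 K) (co : 𝓞 K → Fin (m + 1) → 𝓞 F),
              (∀ x, ∃ t : 𝓞 K, x = ∑ s, algebraMap (𝓞 F) (𝓞 K) (co x s) * ω₀ s + algebraMap (𝓞 F) (𝓞 K) (π ^ N) * t) →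
            ∀ δ : ℂ, δ ^ 2 = embF F (Algebra.discr F fun s => (ω₀ s : K)) →
            ∃ h : 𝓞 K → Ω, (∀ a ∈ XS (mK K M * f * b) c₀, j (h a) = δ * val a / Om ^ (m + 1)) ∧
              ∀ a₀ : 𝓞 K, ∃ H' : (Fin (m + 1) → 𝓞 F) → ℂ_[p], (LR act i T).Fn N (Fin (m + 1)) H' ∧
                ∀ a ∈ XS (mK K M * f * b) c₀, algebraMap (𝓞 F) (𝓞 K) (ρ ^ N) ∣ a - a₀ → i (h a) = H' (co a) := by
  classical
  have hp : p.Prime := Fact.out
  obtain ⟨Bad, hBad, hcore⟩ :=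
    corew2 p hp hM K m hm b f hb hbp hf hfp c₀ hc hc' (p ^ N) ⟨N, rfl⟩
  refine ⟨Bad, hBad, fun c q hs hbad => ?_⟩
  obtain ⟨σ, ν, ix, hix, sg, S, hσ, hν, hS, hA, -, hZ⟩ := hcore c q hs hbad
  refine ⟨fun a => (ν : ℂ)⁻¹ * ∑ jx, (sg jx : ℂ) * (S jx).H a, ?_, ?_⟩
  · intro φ hφ
    obtain ⟨Z, h1, h2, h3⟩ := hZ φ hφ
    refine ⟨Z, h1, h2, fun R hR => ?_⟩
    rw [h3 R hR, Finset.mul_sum, Finset.mul_sum]
    refine Finset.sum_congr rfl fun a _ => ?_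
    push_cast
    ring
  · intro A B Om Ω _ _ _ _ j act mm ψ hd π ρ hpr hcop V i T hV hL ω₀ co hco δ hδ
    have hac : IsAlgClosed Ω := IsAlgClosure.isAlgClosed F
    have hle : mK K M * f * b ≤ Ideal.span {algebraMap (𝓞 F) (𝓞 K) l} * b :=
      Ideal.mul_mono_left (Ideal.mul_le_left.trans (pc_mK hM.le))
    have hD : (⟨σ, mK K M * f * b, c₀, c, q⟩ : H55P.Ctx F K m).Ok := ⟨hσ, fun h => hc' (hle h), hs⟩
    have hk := fun jx => ldH_fnR hd hpr hcop V hV i T hL ω₀ co hco hM.prime (pc_cop hM)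
      (⟨σ, mK K M * f * b, c₀, c, q⟩ : H55P.Ctx F K m) hD (S jx) (hS jx) (hA jx) hN
    choose h h1 h2 using hk
    have hVp : V.valuation (p : Ω) < 1 := by
      have hnat : ak Ω (p : 𝓞 F) = (p : Ω) := by
        show algebraMap F Ω (algebraMap (𝓞 F) F (p : 𝓞 F)) = _
        rw [map_natCast, map_natCast]
      have hmul : ak Ω (π * ρ) = ak Ω π * ak Ω ρ := by
        show algebraMap F Ω (algebraMap (𝓞 F) F (π * ρ)) = _
        rw [map_mul, map_mul]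
      have hint : V.valuation (ak Ω ρ) ≤ 1 := by
        have h1 : IsIntegral ℤ (ak Ω ρ) := map_isIntegral_int (algebraMap F Ω) ρ.2
        have h3 : IsIntegral V (ak Ω ρ) := h1.tower_top
        obtain ⟨t, ht⟩ := IsIntegrallyClosed.isIntegral_iff.1 h3
        rw [← ht]
        exact V.valuation_le_one t
      rw [← hnat, hpr, hmul, map_mul]
      exact (mul_le_of_le_one_right' hint).trans_lt hV
    obtain ⟨ep, hep, hep1⟩ : ∃ ep : ℤ, δ = ep * (Matrix.of fun i s => σ i (ω₀ s : K)).det ∧ (ep = 1 ∨ ep = -1) := by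
      rcases sq_eq_sq_iff_eq_or_eq_neg.1 (hδ.trans (det_sq hσ ω₀).symm) with h | h
      · exact ⟨1, by rw [h]; push_cast; ring, Or.inl rfl⟩
      · exact ⟨-1, by rw [h]; push_cast; ring, Or.inr rfl⟩
    refine ⟨fun a => ((ep : ℤ) : Ω) * ((ν : Ω)⁻¹ * ∑ jx, (sg jx : Ω) * h jx a), ?_, fun a₀ => ?_⟩
    · intro a ha
      have e1 : ∀ jx, j (h jx a) = (Matrix.of fun i s => σ i (ω₀ s : K)).det * ((S jx).H a / Om ^ (m + 1)) := fun jx => by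
        rw [h1 jx a ha, mul_div_assoc]
      rw [map_mul, map_mul, map_inv₀, map_natCast, map_sum, map_intCast, hep]
      have e2 : ∑ jx, j ((sg jx : Ω) * h jx a) = (Matrix.of fun i s => σ i (ω₀ s : K)).det *
          ((∑ jx, (sg jx : ℂ) * (S jx).H a) / Om ^ (m + 1)) := by
        rw [Finset.sum_div, Finset.mul_sum]
        refine Finset.sum_congr rfl fun jx _ => ?_
        rw [map_mul, map_intCast, e1]
        ring
      rw [e2]
      ring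
    · choose H' h3 h4 using fun jx => h2 jx a₀
      refine ⟨fun a => i ((ep : ℤ) : Ω) * (i ((ν : Ω)⁻¹) * ∑ jx, i (sg jx : Ω) * H' jx a), ?_, ?_⟩
      · refine clw_mul (clw_mul (clw_sum _ _ fun jx => clw_mul (h3 jx) _ ?_) _ ?_) _ ?_
        · exact (hL.val _).1 (intCast_mem V.toSubring (sg jx))
        · exact (hL.val _).1 (clw_val V hVp ν hν)
        · exact (hL.val _).1 (intCast_mem V.toSubring ep)
      · intro a ha hcl
        have e1 : ∀ jx, i (h jx a) = H' jx (co a) := fun jx => h4 jx a ha hcl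
        rw [map_mul, map_mul, map_sum]
        congr 2
        refine Finset.sum_congr rfl fun jx _ => ?_
        rw [map_mul, e1]

end SSG.V
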