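import Mathlib
import Pool.Agent.Lib.SSG.LP.D
import Pool.Agent.Lib.SSG.V.V13

/-! # SSG, part V: one class at a prime of degree one, with the local model LocO of SSG/LP -/

open NumberField IsDedekindDomain

namespace SSG.V

open SSG H55N H55P SSG.E SSG.LP
open H35P (WAB Ker tt)
open H55K (CMA Dta GV ak)
open H35M (FnM)

variable {F : Type} [Field F] [NumberField F] [IQ F]

section conv

variable {A B : F} {Om : ℂ} {Ω : Type} [Field Ω] [DecidableEq Ω] [Algebra F Ω] {j : Ω →+* ℂ}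
  {act : 𝓞 F →+* AddMonoid.End (Pt (WAB A B) Ω)} {p : ℕ} [Fact p.Prime] {π : 𝓞 F}
  {V : ValuationSubring Ω} {i : Ω →+* ℂ_[p]} {T : ℕ → Pt (WAB A B) Ω} {X : ∀ N, RB π N → ℂ_[p]}

/-- The local model of SSG/LP is a local model of this part. -/
theorem LocO.toR (hπ : π ≠ 0) (h : LocO A B Om j act π V i T X) : LocR A B Om j act p π V i T where
  val := h.val
  ne := hπ
  zero := h.zero
  down := h.down
  unif := h.unif
  ker := h.ker
  fn := fun N ι _ c => by
    have hmk : ∀ a : ι → 𝓞 F, ∀ k, π ^ N ∣ Quotient.out (Ideal.Quotient.mk (Ideal.span {π ^ N}) (a k)) - a k := by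
      intro a k
      rw [← Ideal.mem_span_singleton, ← Ideal.Quotient.eq]
      exact Ideal.Quotient.mk_out _
    have hH := h.fn N ι c (fun g => i (tt (act (∑ k, c k * Quotient.out (g k)) (T N)))) (fun a => by
      have h1 : act (∑ k, c k * Quotient.out (Ideal.Quotient.mk (Ideal.span {π ^ N}) (a k))) (T N) =
          act (∑ k, c k * a k) (T N) := by
        have h2 : π ^ N ∣ (∑ k, c k * Quotient.out (Ideal.Quotient.mk (Ideal.span {π ^ N}) (a k))) - ∑ k, c k * a k := by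
          rw [← Finset.sum_sub_distrib]
          refine Finset.dvd_sum fun k _ => ?_
          rw [← mul_sub]
          exact (hmk a k).mul_left _
        have h3 := (h.zero N _).2 h2
        rw [map_sub] at h3
        exact sub_eq_zero.1 h3
      show i (tt (act (∑ k, c k * Quotient.out (Ideal.Quotient.mk (Ideal.span {π ^ N}) (a k))) (T N))) = _
      rw [h1])
    intro ε hε
    obtain ⟨Q, hQ, h5⟩ := hH ε hε
    refine ⟨Q, hQ, fun a => ?_⟩
    have h6 := h5 fun k => Ideal.Quotient.mk _ (a k)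
    have h1 : act (∑ k, c k * Quotient.out (Ideal.Quotient.mk (Ideal.span {π ^ N}) (a k))) (T N) =
        act (∑ k, c k * a k) (T N) := by
      have h2 : π ^ N ∣ (∑ k, c k * Quotient.out (Ideal.Quotient.mk (Ideal.span {π ^ N}) (a k))) - ∑ k, c k * a k := by
        rw [← Finset.sum_sub_distrib]
        refine Finset.dvd_sum fun k _ => ?_
        rw [← mul_sub]
        exact (hmk a k).mul_left _
      have h3 := (h.zero N _).2 h2
      rw [map_sub] at h3
      exact sub_eq_zero.1 h3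
    have h7 : (fun k => X N (Ideal.Quotient.mk _ (a k))) = fun k => (LR act i T).X N (a k) := by
      funext k
      exact h.Xmk N (a k)
    have h8 : i (tt (act (∑ k, c k * a k) (T N))) =
        i (tt (act (∑ k, c k * Quotient.out (Ideal.Quotient.mk (Ideal.span {π ^ N}) (a k))) (T N))) := by rw [h1]
    rw [← h7]
    show ‖i (tt (act (∑ k, c k * a k) (T N))) - _‖ ≤ ε
    rw [h8]
    exact h6

/-- The functions of this part are the functions of H35M. -/
theorem fnM_of (hR : OkR π (LR act i T)) (h : LocO A B Om j act π V i T X) {N : ℕ} {ι : Type} [Fintype ι]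
    {H : (ι → 𝓞 F) → ℂ_[p]} (hH : (LR act i T).Fn N ι H) :
    ∃ H' : (ι → RB π N) → ℂ_[p], FnM (X N) ι H' ∧ ∀ a : ι → 𝓞 F, H a = H' fun k => Ideal.Quotient.mk _ (a k) := by
  refine ⟨fun g => H fun k => Quotient.out (g k), ?_, ?_⟩
  · intro ε hε
    obtain ⟨Q, hQ, h5⟩ := hH ε hε
    refine ⟨Q, hQ, fun g => ?_⟩
    have h6 := h5 fun k => Quotient.out (g k)
    have h7 : (fun k => (LR act i T).X N (Quotient.out (g k))) = fun k => X N (g k) := by
      funext k
      have h8 := h.Xmk N (Quotient.out (g k))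
      rw [Ideal.Quotient.mk_out] at h8
      exact h8.symm
    rw [h7] at h6
    exact h6
  · intro a
    refine Fn_perR hR hH _ _ fun k => ?_
    rw [← Ideal.mem_span_singleton, ← Ideal.Quotient.eq]
    exact (Ideal.Quotient.mk_out _).symm

end conv

/-- One class, arbitrary K, values at the primes of degree one above p, for weights modulo p^N which are invariant under the units 1 modulo
M f; ω₀ is a family of integers of K (a basis modulo π, say), co x the coordinates modulo π^N. -/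
theorem classwO (p : ℕ) [Fact p.Prime] {M : Ideal (𝓞 F)} {l : 𝓞 F} (hM : Mod p M l)
    (K : Type) [Field K] [NumberField K] [Algebra F K] (m : ℕ)
    (hm : Module.finrank F K = m + 1) (b f : Ideal (𝓞 K)) (hb : b ≠ ⊥)
    (hbp : IsCoprime b (Ideal.span {(p : 𝓞 K)})) (hf : f ≠ ⊥)
    (hfp : IsCoprime f (Ideal.span {(p : 𝓞 K)}))
    (c₀ : 𝓞 K) (hc : c₀ ∈ b) (hc' : c₀ ∉ Ideal.span {algebraMap (𝓞 F) (𝓞 K) l} * b) (N : ℕ) (hN : 1 ≤ N) :
    ∃ Bad : Set (Ideal (𝓞 K)), Bad.Finite ∧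
      ∀ (c : Fin (m + 1) × Fin 2 → Ideal (𝓞 K)) (q : Fin (m + 1) × Fin 2 → ℕ), Smooth c q →
        (∀ i, c i ∉ Bad) → ∃ val : 𝓞 K → ℂ,
          (∀ φ : 𝓞 K → ℂ, WtJ (mK K M * f) (mK K M * f * b) c₀ (p ^ N) φ →
            ∃ Z : ℂ → ℂ, AnalyticOnNhd ℂ Z {s | 1 / 2 < s.re} ∧
            (∀ T : Set (𝓞 K), Transv (mK K M * f) (XS (mK K M * f * b) c₀) T →
              ∀ s : ℂ, 3 / 2 < s.re → HasSum (fun x : T => φ x * (gw c q x * nf F s (x : 𝓞 K))) (Z s)) ∧
            ∀ R : Finset (𝓞 K), RpU (mK K M * f * b) c₀ (p ^ N) R →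
              Z 1 = (((p : ℂ) ^ N)⁻¹) ^ (m + 1) * ∑ a ∈ R, φ a * val a) ∧
          ∀ (A B : F) (Om : ℂ) (Ω : Type) [Field Ω] [DecidableEq Ω] [Algebra F Ω] [IsAlgClosure F Ω] (j : Ω →+* ℂ)
            (act : 𝓞 F →+* AddMonoid.End (Pt (WAB A B) Ω)) (mm : Ideal (𝓞 F)) (ψ : Ideal (𝓞 F) →*₀ 𝓞 F),
            Dta A B Om j act mm ψ p →
            ∀ (π ρ : 𝓞 F), (p : 𝓞 F) = π * ρ → IsCoprime π ρ →
            ∀ (V : ValuationSubring Ω) (i : Ω →+* ℂ_[p]) (T : ℕ → Pt (WAB A B) Ω) (X : ∀ N, RB π N → ℂ_[p]),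
              V.valuation (ak Ω π) < 1 → LocO A B Om j act π V i T X →
            ∀ (ω₀ : Fin (m + 1) → 𝓞 K) (co : 𝓞 K → Fin (m + 1) → 𝓞 F),
              (∀ x, ∃ t : 𝓞 K, x = ∑ s, algebraMap (𝓞 F) (𝓞 K) (co x s) * ω₀ s + algebraMap (𝓞 F) (𝓞 K) (π ^ N) * t) →
            ∀ δ : ℂ, δ ^ 2 = embF F (Algebra.discr F fun s => (ω₀ s : K)) →
            ∃ h : 𝓞 K → Ω, (∀ a ∈ XS (mK K M * f * b) c₀, j (h a) = δ * val a / Om ^ (m + 1)) ∧
              ∀ a₀ : 𝓞 K, ∃ H' : (Fin (m + 1) → RB π N) → ℂ_[p], FnM (X N) (Fin (m + 1)) H' ∧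
                ∀ a ∈ XS (mK K M * f * b) c₀, algebraMap (𝓞 F) (𝓞 K) (ρ ^ N) ∣ a - a₀ →
                  i (h a) = H' fun s => Ideal.Quotient.mk _ (co a s) := by
  obtain ⟨Bad, hBad, hcore⟩ := classwR p hM K m hm b f hb hbp hf hfp c₀ hc hc' N hN
  refine ⟨Bad, hBad, fun c q hs hbad => ?_⟩
  obtain ⟨val, h1, h2⟩ := hcore c q hs hbad
  refine ⟨val, h1, ?_⟩
  intro A B Om Ω _ _ _ _ j act mm ψ hd π ρ hpr hcop V i T X hV hL ω₀ co hco δ hδ
  have hπ : π ≠ 0 := by
    rintro rfl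
    rw [zero_mul] at hpr
    exact (Fact.out : p.Prime).ne_zero (by exact_mod_cast hpr)
  have hLR := LocO.toR hπ hL
  obtain ⟨h, h3, h4⟩ := h2 A B Om Ω j act mm ψ hd π ρ hpr hcop V i T hV hLR ω₀ co hco δ hδ
  refine ⟨h, h3, fun a₀ => ?_⟩
  obtain ⟨H, hH, h5⟩ := h4 a₀
  have hVp : V.valuation (p : Ω) < 1 := by
    have hac : IsAlgClosed Ω := IsAlgClosure.isAlgClosed F
    have hnat : ak Ω (p : 𝓞 F) = (p : Ω) := by
      show algebraMap F Ω (algebraMap (𝓞 F) F (p : 𝓞 F)) = _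
      rw [map_natCast, map_natCast]
    have hmul : ak Ω (π * ρ) = ak Ω π * ak Ω ρ := by
      show algebraMap F Ω (algebraMap (𝓞 F) F (π * ρ)) = _
      rw [map_mul, map_mul]
    have hint : V.valuation (ak Ω ρ) ≤ 1 := by
      have h1 : IsIntegral ℤ (ak Ω ρ) := map_isIntegral_int (algebraMap F Ω) ρ.2
      have h3 : IsIntegral V (ak Ω ρ) := h1.tower_top
      obtain ⟨t, ht⟩ := IsIntegrallyClosed.isIntegral_iff.1 h3
      rw [← ht]
      exact V.valuation_le_one t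
    rw [← hnat, hpr, hmul, map_mul]
    exact (mul_le_of_le_one_right' hint).trans_lt hV
  obtain ⟨H', hH', h6⟩ := fnM_of (okR (hd.good V hVp) hLR) hL hH
  refine ⟨H', hH', fun a ha hcl => ?_⟩
  rw [h5 a ha hcl, h6]

end SSG.V
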