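import Mathlib
import Pool.Agent.Lib.H55K.G5E
import Pool.Agent.Lib.SSG.LT.EM
import Pool.Agent.Lib.SSG.LT.XM1
import Pool.Agent.Lib.SSG.LT.XM4
import Pool.Agent.Lib.SSG.LT.PA3
import Pool.Agent.Lib.SSG.V.V10

/-! # SSG, part V: existence of the local model at a prime π of F -/

open NumberField IsDedekindDomain WeierstrassCurve

namespace SSG.V

open SSG SSG.LT
open H55P (IQ embF eF LF Per IsHecke Pt ac Inert Dec)
open H35P (WAB Ker tt)
open H55K

/-- Every place of Ω above p comes from an embedding of Ω in the algebraic closure of ℚ_p (no condition on p in F). -/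
theorem emb_any {F : Type} [Field F] [NumberField F] {Ω : Type} [Field Ω] [Algebra F Ω] [IsAlgClosure F Ω] {p : ℕ} [Fact p.Prime]
    (V : ValuationSubring Ω) (hV : V.valuation (p : Ω) < 1) :
    ∃ i₀ : Ω →+* PadicAlgCl p, ∀ x, x ∈ V ↔ ‖i₀ x‖ ≤ 1 := by
  have hp : p.Prime := Fact.out
  have hac : IsAlgClosed Ω := IsAlgClosure.isAlgClosed F
  have hal : Algebra.IsAlgebraic F Ω := IsAlgClosure.isAlgebraic
  have hch : CharZero Ω := charZero_of_injective_algebraMap (algebraMap F Ω).injective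
  have halQ : Algebra.IsAlgebraic ℚ F := inferInstance
  have hal2 : Algebra.IsAlgebraic ℚ Ω := Algebra.IsAlgebraic.trans ℚ F Ω
  have hcl : IsAlgClosure ℚ Ω := ⟨hac, hal2⟩
  have hpr : Prime (p : 𝓞 ℚ) := by
    have h1 : Prime (p : ℤ) := Nat.prime_iff_prime_int.1 hp
    have h2 : (p : 𝓞 ℚ) = Rat.ringOfIntegersEquiv.symm (p : ℤ) := (map_natCast _ p).symm
    rw [h2]
    exact (MulEquiv.prime_iff (Rat.ringOfIntegersEquiv.symm : ℤ ≃* 𝓞 ℚ)).2 h1
  exact em (F := ℚ) hpr V hV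

variable {F : Type} [Field F] [NumberField F] [IQ F] {A B : F} {Om : ℂ} {Ω : Type} [Field Ω] [DecidableEq Ω]
  [Algebra F Ω] {j : Ω →+* ℂ} {act : 𝓞 F →+* AddMonoid.End (Pt (WAB A B) Ω)} {p : ℕ} [Fact p.Prime] {π : 𝓞 F}
  {V : ValuationSubring Ω}

theorem ptR_ker (h : CMA F A B Om j act) (hG : GV A B V) (hπ : Prime π) (hV : V.valuation (ak Ω π) < 1) (n : ℕ)
    {X : Pt (WAB A B) Ω} (hX : act (π ^ n) X = 0) : Ker V X := by
  induction n generalizing X with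
  | zero =>
    rw [pow_zero, map_one] at hX
    have h1 : X = 0 := hX
    rw [h1]
    exact ker_zero V
  | succ n ih =>
    rw [pow_succ, map_mul] at hX
    have h1 : act (π ^ n) (act π X) = 0 := hX
    exact ker_red h hG hπ hV (ih h1)

/-- The points T N. -/
theorem ptR (h : CMA F A B Om j act) (hG : GV A B V) (hπ : Prime π) (hV : V.valuation (ak Ω π) < 1) :
    ∃ T : ℕ → Pt (WAB A B) Ω, (∀ N (a : 𝓞 F), act a (T N) = 0 ↔ π ^ N ∣ a) ∧ (∀ N, act π (T (N + 1)) = T N) ∧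
      (∀ N (a : 𝓞 F), ¬ π ^ N ∣ a →
        j (xc (act a (T N))) = (LF F).weierstrassP (eF F a / (eF F π) ^ N) / Om ^ 2 ∧
        j (yc (act a (T N))) = (LF F).derivWeierstrassP (eF F a / (eF F π) ^ N) / (2 * Om ^ 3)) ∧
      ∀ N (a : 𝓞 F), Ker V (act a (T N)) := by
  have hone : ∀ N : ℕ, ∃ T₀ : Pt (WAB A B) Ω, (∀ a : 𝓞 F, act a T₀ = 0 ↔ π ^ N ∣ a) ∧
      ∀ a : 𝓞 F, ¬ π ^ N ∣ a →
        j (xc (act a T₀)) = (LF F).weierstrassP (eF F a / (eF F π) ^ N) / Om ^ 2 ∧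
        j (yc (act a T₀)) = (LF F).derivWeierstrassP (eF F a / (eF F π) ^ N) / (2 * Om ^ 3) := by
    intro N
    obtain ⟨T₀, -, -, h1, h2⟩ := h.gen (π ^ N) (pow_ne_zero _ hπ.ne_zero)
    refine ⟨T₀, h1, fun a ha => ?_⟩
    have h3 := h2 a ha
    rwa [map_pow] at h3
  choose T hT1 hT2 using hone
  have hact1 : ∀ X : Pt (WAB A B) Ω, act 1 X = X := by
    intro X
    rw [map_one]
    rfl
  have hactm : ∀ (a b : 𝓞 F) (X : Pt (WAB A B) Ω), act (a * b) X = act a (act b X) := by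
    intro a b X
    rw [map_mul]
    rfl
  have hπC : eF F π ≠ 0 := fun h0 => hπ.ne_zero (H55P.eF_inj (h0.trans (map_zero _).symm))
  refine ⟨T, hT1, fun N => ?_, hT2, fun N a => ?_⟩
  · rcases Nat.eq_zero_or_pos N with rfl | hN
    · have h1 : T 0 = 0 := by
        rw [← hact1 (T 0), hT1 0 1, pow_zero]
      have h2 : act π (T (0 + 1)) = 0 := by
        rw [hT1 (0 + 1) π, zero_add, pow_one]
      rw [h1, h2]
    · have h1' : ¬ π ^ (N + 1) ∣ π := by
        intro hd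
        have h2 : ¬ IsUnit π := hπ.not_isUnit
        apply h2
        have h3 : π ^ (N + 1) ∣ π ^ 1 := by rwa [pow_one]
        have h4 := (pow_dvd_pow_iff hπ.ne_zero h2).1 h3
        omega
      have h1 : act π (T (N + 1)) ≠ 0 := fun h0 => h1' ((hT1 (N + 1) _).1 h0)
      have h2' : ¬ π ^ N ∣ 1 := by
        intro hd
        exact hπ.not_isUnit (isUnit_pow_iff hN.ne' |>.1 (isUnit_of_dvd_one hd))
      have h2 : T N ≠ 0 := by
        intro h0
        rw [← hact1 (T N), hT1 N 1] at h0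
        exact h2' h0
      obtain ⟨h3, h4⟩ := hT2 (N + 1) _ h1'
      obtain ⟨h5, h6⟩ := hT2 N 1 h2'
      rw [hact1] at h5 h6
      have he : eF F π / (eF F π) ^ (N + 1) = eF F 1 / (eF F π) ^ N := by
        rw [map_one, pow_succ]
        field_simp
      rw [he] at h3 h4
      exact pt_ext h1 h2 (j.injective (h3.trans h5.symm)) (j.injective (h4.trans h6.symm))
  · refine ptR_ker h hG hπ hV N (X := act a (T N)) ?_
    rw [← hactm, hT1 N]
    exact dvd_mul_right _ _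

/-- The functions of the multiples. -/
theorem fnR (h : CMA F A B Om j act) (hG : GV A B V) (i : Ω →+* ℂ_[p]) (hi : ∀ x, x ∈ V ↔ ‖i x‖ ≤ 1)
    (T : ℕ → Pt (WAB A B) Ω) (hπ : π ≠ 0) (h0 : ∀ N (a : 𝓞 F), act a (T N) = 0 ↔ π ^ N ∣ a)
    (hk : ∀ N (a : 𝓞 F), Ker V (act a (T N))) (N : ℕ) (ι : Type) [Fintype ι] (c : ι → 𝓞 F) :
    (LR act i T).Fn N ι (fun a => i (tt (act (∑ k, c k * a k) (T N)))) := by
  have hlt : ∀ N b, ‖i (tt (act b (T N)))‖ < 1 := fun N b => xm4_lt hi (ttlt hG (hk N b))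
  have hτ : ∀ (k : ι) (x : ι → 𝓞 F), ‖(fun (k : ι) (x : ι → 𝓞 F) => (LR act i T).X N (x k)) k x‖ ≤ 1 := by
    intro k x
    exact (hlt N (x k)).le
  obtain ⟨ρ, hρ, hρ2⟩ := xm1_bd h hG i hi (pow_ne_zero N hπ) ((h0 N _).2 dvd_rfl) (hk N)
  have hPC : ∀ k : ι, PC V i (fun (k : ι) (x : ι → 𝓞 F) => (LR act i T).X N (x k)) (fun x => act (x k) (T N)) := fun k =>
    ⟨fun x => hk N (x k), ⟨ρ, hρ, fun x => hρ2 _⟩, Cl.var (τ := fun (k : ι) (x : ι → 𝓞 F) => (LR act i T).X N (x k)) k⟩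
  have h2 := PC.sum hτ hi hG Finset.univ (P := fun (k : ι) (x : ι → 𝓞 F) => act (c k) (act (x k) (T N)))
    fun k _ => PC.act_all hτ hi h hG (c k) (hPC k)
  have h3 : (fun x : ι → 𝓞 F => ∑ k, act (c k) (act (x k) (T N))) = fun x : ι → 𝓞 F => act (∑ k, c k * x k) (T N) := by
    funext x
    have h4 : ∀ s : Finset ι, act (∑ k ∈ s, c k * x k) (T N) = ∑ k ∈ s, act (c k) (act (x k) (T N)) := by
      classical
      intro s
      induction s using Finset.induction_on with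
      | empty =>
        rw [Finset.sum_empty, Finset.sum_empty, map_zero]
        rfl
      | insert k s hk ih =>
        rw [Finset.sum_insert hk, Finset.sum_insert hk, map_add, map_mul]
        show act (c k) (act (x k) (T N)) + act (∑ k ∈ s, c k * x k) (T N) = _
        rw [ih]
    exact (h4 Finset.univ).symm
  have h4 := h2.cl
  intro ε hε
  obtain ⟨Q, hQ, h5⟩ := h4 ε hε
  refine ⟨Q, hQ, fun x => ?_⟩
  have h6 := h5 x
  have h7 : ∑ k, act (c k) (act (x k) (T N)) = act (∑ k, c k * x k) (T N) := congrFun h3 x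
  show ‖i (tt (act (∑ k, c k * x k) (T N))) - _‖ ≤ ε
  rw [← h7]
  exact h6

/-- Existence of the local model at a prime π of F above p. -/
theorem exists_locR [IsAlgClosure F Ω] {m : Ideal (𝓞 F)} {ψ : Ideal (𝓞 F) →*₀ 𝓞 F} (d : Dta A B Om j act m ψ p)
    (hπ : Prime π) (hVp : V.valuation (p : Ω) < 1) (hV : V.valuation (ak Ω π) < 1) :
    ∃ (i : Ω →+* ℂ_[p]) (T : ℕ → Pt (WAB A B) Ω), LocR A B Om j act p π V i T := by
  obtain ⟨i₀, hi⟩ := emb_any (F := F) V hVp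
  have hi' : ∀ x, x ∈ V ↔ ‖toC i₀ x‖ ≤ 1 := fun x => by
    rw [norm_toC]
    exact hi x
  have hG := d.good V hVp
  obtain ⟨T, h1, h2, h3, h4⟩ := ptR d.cma hG hπ hV
  exact ⟨toC i₀, T, ⟨hi', hπ.ne_zero, h1, h2, h3, h4, fun N ι _ c => fnR d.cma hG (toC i₀) hi' T hπ.ne_zero h1 h4 N ι c⟩⟩

end SSG.V
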